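import Pool.Agent.Lib_helper16.Det.Light

/-!
The discrepancy bound.
-/

set_option autoImplicit false

namespace Pool.Agent.Det

open Finset

attribute [local instance] Classical.propDecidable

/-- The steps of type `d + i` do not depend on group `i`, and those of other types depend on
nothing. -/
def Ind {E : Type} (m r : ℕ) (B : Type) (d : ℕ) (lam : E → ℕ)
    (S : Wt m r B → E → Option E) : Prop :=
  ∀ e w w', (∀ i, lam e = d + i → Agree m r B i w w') → S w e = S w' e

lemma sum_chi_zero (m : ℕ) (B : Type) [Fintype B] (A : Finset B) (hA : A.Nonempty) :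
    ∑ y : Wt m 0 B, chi m 0 B A y = 0 := by
  obtain ⟨b0, hb0⟩ := hA
  have e1 : ∀ y : B → Bool, chi m 0 B A y =
      ∏ b : B, (if b ∈ A then (if y b then (-1 : ℝ) else 1) else 1) := by
    intro y
    rw [← Finset.prod_filter]
    unfold chi
    refine Finset.prod_congr ?_ fun b _ => rfl
    ext b; simp
  have e2 : ∑ y : B → Bool, chi m 0 B A y =
      ∏ b : B, ∑ c : Bool, (if b ∈ A then (if c then (-1 : ℝ) else 1) else 1) := by
    rw [Finset.prod_univ_sum, Fintype.piFinset_univ]
    exact Finset.sum_congr rfl fun y _ => e1 y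
  have e3 : ∏ b : B, ∑ c : Bool, (if b ∈ A then (if c then (-1 : ℝ) else 1) else 1) = 0 := by
    refine Finset.prod_eq_zero (Finset.mem_univ b0) ?_
    rw [Fintype.sum_bool]
    simp [hb0]
  exact e2.trans e3

lemma card_Wt_succ (m r : ℕ) (B : Type) [Fintype B] :
    (Fintype.card (Wt m (r + 1) B) : ℝ) =
      Fintype.card (B × Fin m → Bool) * Fintype.card (Wt m r (B × Fin m)) := by
  have : Fintype.card (Wt m (r + 1) B) =
      Fintype.card ((B × Fin m → Bool) × Wt m r (B × Fin m)) := rfl
  rw [this, Fintype.card_prod]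
  push_cast
  ring

lemma sum_Wt_succ (m r : ℕ) (B : Type) [Fintype B] (f : Wt m (r + 1) B → ℝ) :
    ∑ w, f w = ∑ w : Wt m r (B × Fin m), ∑ x : B × Fin m → Bool, f (Wt.mk x w) :=
  Fintype.sum_prod_type_right
    (fun w : (B × Fin m → Bool) × Wt m r (B × Fin m) => f (Wt.mk w.1 w.2))

lemma prod_ind_le {ι : Type} [Fintype ι] (P : ι → Prop) :
    |∏ i, ind (P i)| ≤ 1 := by
  rw [Finset.abs_prod]
  refine Finset.prod_le_one (fun i _ => abs_nonneg _) ?_
  intro i _
  rw [abs_of_nonneg (ind_nonneg _)]
  exact ind_le_one _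

theorem disc {E : Type} [Fintype E] (m m' : ℕ) (hm64 : m = 64 * m') (hm : 1 ≤ m')
    (lam : E → ℕ) (e0 : E) (N : ℕ → ℕ) (L : ℕ) (hL : Fintype.card E * (Fintype.card E + 1) + 1 ≤ 2 ^ L) :
    ∀ (r : ℕ) (B : Type) [Fintype B] (d : ℕ) (ι : Type) [Fintype ι]
      (Sy : ι → Wt m r B → E → Option E) (Ψ : ι → Finset E → Prop) (A : Finset B)
      (a : ℕ), 1 ≤ a → a ≤ A.card → (∀ e, lam e ≤ d + r) →
      (∀ i, Ind m r B d lam (Sy i)) →
      (∀ i V, Ψ i V → ∀ j < r, (typ lam (d + j) V).card ≤ N (d + j)) →
      (∀ j < r, Fintype.card ι * 2 ^ j * (N (d + j) * L) ≤ m' * a * (16 * m') ^ j) →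
      |∑ w, chi m r B A w * ∏ i, ind (Ψ i (rch (Sy i w) e0))| ≤
        (1 / 2) ^ (m' * a) * Fintype.card (Wt m r B) := by
  intro r
  induction r with
  | zero =>
    intro B _ d ι _ Sy Ψ A a ha1 haA hlam hInd _ _
    have hA : A.Nonempty := Finset.card_pos.1 (by omega)
    have hconst : ∀ y y' : Wt m 0 B, ∀ i, Sy i y = Sy i y' := by
      intro y y' i
      funext e
      refine hInd i e y y' ?_
      intro j hj
      have := hlam e
      have : j = 0 := by omega
      exact Or.inl this
    let y0 : Wt m 0 B := (fun _ => false : B → Bool)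
    have : ∑ w, chi m 0 B A w * ∏ i, ind (Ψ i (rch (Sy i w) e0)) =
        (∑ w, chi m 0 B A w) * ∏ i, ind (Ψ i (rch (Sy i y0) e0)) := by
      rw [Finset.sum_mul]
      refine Finset.sum_congr rfl ?_
      intro w _
      congr 1
      refine Finset.prod_congr rfl ?_
      intro i _
      rw [hconst w y0 i]
    rw [this, sum_chi_zero _ _ _ hA, zero_mul, abs_zero]
    positivity
  | succ r ih =>
    intro B _ d ι _ Sy Ψ A a ha1 haA hlam hInd hΨ hcnt
    set X := Fintype.card (B × Fin m → Bool) with hX
    set W := Fintype.card (Wt m r (B × Fin m)) with hW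
    rw [card_Wt_succ, sum_Wt_succ]
    let x0 : B × Fin m → Bool := fun _ => false
    let PF : Finset (ι → E → Option (Option E)) := Fintype.piFinset fun _ => PM lam d (N d)
    let G : (ι → E → Option (Option E)) → Wt m r (B × Fin m) → ℝ := fun ρ w =>
      ∏ i, ind (∀ e v, ρ i e = some v → Sy i (Wt.mk x0 w) e = v)
    let Sx : (ι → E → Option (Option E)) → (B × Fin m → Bool) → ι →
        Wt m r (B × Fin m) → E → Option E := fun ρ x i w => fz lam d (ρ i) (Sy i (Wt.mk x w))
    let Ψ' : (ι → E → Option (Option E)) → ι → Finset E → Prop := fun ρ i V =>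
      Ψ i V ∧ typ lam d V = dm (ρ i)
    let H : (ι → E → Option (Option E)) → (B × Fin m → Bool) → Wt m r (B × Fin m) → ℝ :=
      fun ρ x w => ∏ i, ind (Ψ' ρ i (rch (Sx ρ x i w) e0))
    -- the expansion
    have hexp : ∀ x w, ∏ i, ind (Ψ i (rch (Sy i (Wt.mk x w)) e0)) = ∑ ρ ∈ PF, G ρ w * H ρ x w := by
      intro x w
      have e1 : ∀ i, ind (Ψ i (rch (Sy i (Wt.mk x w)) e0)) = ∑ ρ ∈ PM lam d (N d),
          ind (∀ e v, ρ e = some v → Sy i (Wt.mk x0 w) e = v) *
          ind (Ψ i (rch (fz lam d ρ (Sy i (Wt.mk x w))) e0) ∧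
            typ lam d (rch (fz lam d ρ (Sy i (Wt.mk x w))) e0) = dm ρ) := by
        intro i
        rw [expand lam d (N d) (Sy i (Wt.mk x w)) e0 (Ψ i)
          (fun V hV => by have := hΨ i V hV 0 (by omega); rwa [Nat.add_zero] at this)]
        refine Finset.sum_congr rfl ?_
        intro ρ hρ
        have hρ := (Finset.mem_filter.1 hρ).2
        congr 1
        refine ind_congr ?_
        have e2 : ∀ e v, ρ e = some v → Sy i (Wt.mk x w) e = Sy i (Wt.mk x0 w) e := by
          intro e v hv
          have hl : lam e = d := hρ.1 e (by rw [hv]; simp)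
          refine hInd i e _ _ ?_
          intro j hj
          have : j = 0 := by omega
          subst this
          show w = w
          rfl
        constructor
        · intro h e v hv
          rw [← e2 e v hv]; exact h e v hv
        · intro h e v hv
          rw [e2 e v hv]; exact h e v hv
      rw [Finset.prod_congr rfl fun i _ => e1 i, Finset.prod_univ_sum]
      refine Finset.sum_congr rfl ?_
      intro ρ _
      rw [Finset.prod_mul_distrib]
    have hsum : ∑ w : Wt m r (B × Fin m), ∑ x : B × Fin m → Bool,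
        chi m (r + 1) B A (Wt.mk x w) * ∏ i, ind (Ψ i (rch (Sy i (Wt.mk x w)) e0)) =
        ∑ ρ ∈ PF, ∑ w : Wt m r (B × Fin m), G ρ w *
          ∑ x : B × Fin m → Bool, chi m (r + 1) B A (Wt.mk x w) * H ρ x w := by
      calc _ = ∑ w : Wt m r (B × Fin m), ∑ x : B × Fin m → Bool, ∑ ρ ∈ PF,
            G ρ w * (chi m (r + 1) B A (Wt.mk x w) * H ρ x w) := by
            refine Finset.sum_congr rfl fun w _ => Finset.sum_congr rfl fun x _ => ?_
            rw [hexp, Finset.mul_sum]
            refine Finset.sum_congr rfl fun ρ _ => ?_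
            ring
        _ = ∑ w : Wt m r (B × Fin m), ∑ ρ ∈ PF, ∑ x : B × Fin m → Bool,
            G ρ w * (chi m (r + 1) B A (Wt.mk x w) * H ρ x w) := by
            refine Finset.sum_congr rfl fun w _ => ?_
            rw [Finset.sum_comm]
        _ = ∑ ρ ∈ PF, ∑ w : Wt m r (B × Fin m), ∑ x : B × Fin m → Bool,
            G ρ w * (chi m (r + 1) B A (Wt.mk x w) * H ρ x w) := Finset.sum_comm
        _ = _ := by
            refine Finset.sum_congr rfl fun ρ _ => Finset.sum_congr rfl fun w _ => ?_
            rw [Finset.mul_sum]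
    -- one term
    have hterm : ∀ ρ ∈ PF, |∑ w : Wt m r (B × Fin m), G ρ w *
          ∑ x : B × Fin m → Bool, chi m (r + 1) B A (Wt.mk x w) * H ρ x w| ≤
          (1 / 2) ^ (2 * (m' * a)) * (X * W) := by
      intro ρ hρ
      have hinner : ∀ x x' : B × Fin m → Bool,
          |∑ w : Wt m r (B × Fin m), (chi m (r + 1) B A (Wt.mk x w) * H ρ x w) *
            (chi m (r + 1) B A (Wt.mk x' w) * H ρ x' w)| ≤
          (if (dif A x x').card < 16 * m' * a then (1 : ℝ) else 0) * W +
            (1 / 2) ^ (8 * (m' * a)) * W := by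
        intro x x'
        have e1 : ∀ w : Wt m r (B × Fin m), (chi m (r + 1) B A (Wt.mk x w) * H ρ x w) *
            (chi m (r + 1) B A (Wt.mk x' w) * H ρ x' w) =
            chi m r (B × Fin m) (dif A x x') w * ∏ q : ι × Bool,
              ind (Ψ' ρ q.1 (rch (Sx ρ (if q.2 then x' else x) q.1 w) e0)) := by
          intro w
          rw [Fintype.prod_prod_type]
          have e2 : ∀ i, ∏ b : Bool, ind (Ψ' ρ i (rch (Sx ρ (if b then x' else x) i w) e0)) =
              ind (Ψ' ρ i (rch (Sx ρ x i w) e0)) * ind (Ψ' ρ i (rch (Sx ρ x' i w) e0)) := by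
            intro i
            rw [Fintype.prod_bool]
            simp [mul_comm]
          rw [Finset.prod_congr rfl fun i _ => e2 i, Finset.prod_mul_distrib,
            chi_succ, chi_succ, ← chi_act_mul]
          ring
        rw [Finset.sum_congr rfl fun w _ => e1 w]
        by_cases hl : (dif A x x').card < 16 * m' * a
        · rw [if_pos hl, one_mul]
          have : |∑ w : Wt m r (B × Fin m), chi m r (B × Fin m) (dif A x x') w *
              ∏ q : ι × Bool, ind (Ψ' ρ q.1 (rch (Sx ρ (if q.2 then x' else x) q.1 w) e0))| ≤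
              W := by
            refine (Finset.abs_sum_le_sum_abs _ _).trans ?_
            have : ∀ w ∈ (Finset.univ : Finset (Wt m r (B × Fin m))),
                |chi m r (B × Fin m) (dif A x x') w * ∏ q : ι × Bool,
                  ind (Ψ' ρ q.1 (rch (Sx ρ (if q.2 then x' else x) q.1 w) e0))| ≤ 1 := by
              intro w _
              rw [abs_mul, abs_chi, one_mul]
              exact prod_ind_le _
            refine (Finset.sum_le_sum this).trans ?_
            rw [Finset.sum_const, Finset.card_univ, nsmul_eq_mul, mul_one]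
          have h0 : (0 : ℝ) ≤ (1 / 2) ^ (8 * (m' * a)) * W := by positivity
          linarith
        · rw [if_neg hl, zero_mul, zero_add]
          have h1 := ih (B × Fin m) (d + 1) (ι × Bool)
            (fun q w => Sx ρ (if q.2 then x' else x) q.1 w) (fun q => Ψ' ρ q.1) (dif A x x')
            (16 * m' * a) (by
              have : 1 ≤ m' * a := Nat.one_le_iff_ne_zero.2 (by positivity)
              calc 1 ≤ m' * a := this
                _ ≤ 16 * (m' * a) := by omega
                _ = 16 * m' * a := by ring) (not_lt.1 hl)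
            (fun e => by have := hlam e; omega)
            (by
              rintro ⟨i, b⟩ e w w' hag
              show fz lam d (ρ i) (Sy i (Wt.mk _ w)) e = fz lam d (ρ i) (Sy i (Wt.mk _ w')) e
              unfold fz
              by_cases hl' : lam e = d
              · rw [if_pos hl', if_pos hl']
              · rw [if_neg hl', if_neg hl']
                refine hInd i e _ _ ?_
                intro j hj
                cases j with
                | zero => exact absurd hj (by rw [Nat.add_zero]; exact hl')
                | succ j => exact ⟨rfl, hag j (by omega)⟩)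
            (by
              rintro ⟨i, b⟩ V hV j hj
              have := hΨ i V hV.1 (j + 1) (by omega)
              have e3 : d + (j + 1) = d + 1 + j := by omega
              rwa [e3] at this)
            (by
              intro j hj
              have := hcnt (j + 1) (by omega)
              have e3 : d + (j + 1) = d + 1 + j := by omega
              rw [e3] at this
              rw [Fintype.card_prod, Fintype.card_bool]
              calc Fintype.card ι * 2 * 2 ^ j * (N (d + 1 + j) * L) =
                    Fintype.card ι * 2 ^ (j + 1) * (N (d + 1 + j) * L) := by ring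
                _ ≤ m' * a * (16 * m') ^ (j + 1) := this
                _ = m' * (16 * m' * a) * (16 * m') ^ j := by ring)
          refine h1.trans ?_
          refine mul_le_mul_of_nonneg_right ?_ (Nat.cast_nonneg _)
          refine pow_le_pow_of_le_one (by norm_num) (by norm_num) ?_
          calc 8 * (m' * a) ≤ 16 * (m' * a) := by omega
            _ = 1 * (16 * (m' * a)) := by ring
            _ ≤ m' * (16 * (m' * a)) := Nat.mul_le_mul_right _ hm
            _ = m' * (16 * m' * a) := by ring
      -- Cauchy-Schwarz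
      have hK : ∑ w : Wt m r (B × Fin m),
          (∑ x : B × Fin m → Bool, chi m (r + 1) B A (Wt.mk x w) * H ρ x w) ^ 2 ≤
          2 * (1 / 2) ^ (8 * (m' * a)) * (X * X * W) := by
        have e1 : ∑ w : Wt m r (B × Fin m),
            (∑ x : B × Fin m → Bool, chi m (r + 1) B A (Wt.mk x w) * H ρ x w) ^ 2 =
            ∑ x : B × Fin m → Bool, ∑ x' : B × Fin m → Bool, ∑ w : Wt m r (B × Fin m),
              (chi m (r + 1) B A (Wt.mk x w) * H ρ x w) *
                (chi m (r + 1) B A (Wt.mk x' w) * H ρ x' w) := by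
          have e2 : ∀ w : Wt m r (B × Fin m),
              (∑ x : B × Fin m → Bool, chi m (r + 1) B A (Wt.mk x w) * H ρ x w) ^ 2 =
              ∑ x : B × Fin m → Bool, ∑ x' : B × Fin m → Bool,
              (chi m (r + 1) B A (Wt.mk x w) * H ρ x w) *
                (chi m (r + 1) B A (Wt.mk x' w) * H ρ x' w) := by
            intro w
            rw [pow_two, Finset.sum_mul_sum]
          rw [Finset.sum_congr rfl fun w _ => e2 w, Finset.sum_comm]
          refine Finset.sum_congr rfl fun x _ => ?_
          rw [Finset.sum_comm]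
        rw [e1]
        calc _ ≤ ∑ x : B × Fin m → Bool, ∑ x' : B × Fin m → Bool,
              ((if (dif A x x').card < 16 * m' * a then (1 : ℝ) else 0) * W +
              (1 / 2) ^ (8 * (m' * a)) * W) := by
              refine Finset.sum_le_sum fun x _ => Finset.sum_le_sum fun x' _ => ?_
              exact (le_abs_self _).trans (hinner x x')
          _ ≤ ∑ x : B × Fin m → Bool, ((1 / 2 : ℝ) ^ (8 * (m' * a)) * (X : ℝ) * (W : ℝ) +
              (X : ℝ) * ((1 / 2 : ℝ) ^ (8 * (m' * a)) * (W : ℝ))) := by
              refine Finset.sum_le_sum fun x _ => ?_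
              rw [Finset.sum_add_distrib, ← Finset.sum_mul, Finset.sum_const, Finset.card_univ,
                nsmul_eq_mul]
              refine add_le_add ?_ le_rfl
              refine mul_le_mul_of_nonneg_right ?_ (Nat.cast_nonneg _)
              rw [Finset.sum_boole]
              exact light_bound m m' hm64 A a haA x
          _ = _ := by
              rw [Finset.sum_const, Finset.card_univ, nsmul_eq_mul]
              ring
      have hG : ∑ w : Wt m r (B × Fin m), (G ρ w) ^ 2 ≤ W := by
        have : ∀ w ∈ (Finset.univ : Finset (Wt m r (B × Fin m))), (G ρ w) ^ 2 ≤ 1 := by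
          intro w _
          have := prod_ind_le (fun i => ∀ e v, ρ i e = some v → Sy i (Wt.mk x0 w) e = v)
          exact (sq_le_one_iff_abs_le_one _).2 this
        refine (Finset.sum_le_sum this).trans ?_
        rw [Finset.sum_const, Finset.card_univ, nsmul_eq_mul, mul_one]
      have hCS := Finset.sum_mul_sq_le_sq_mul_sq (Finset.univ : Finset (Wt m r (B × Fin m)))
        (fun w => G ρ w)
        (fun w => ∑ x : B × Fin m → Bool, chi m (r + 1) B A (Wt.mk x w) * H ρ x w)
      have hu : 1 ≤ m' * a := Nat.one_le_iff_ne_zero.2 (by positivity)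
      have hpw : (2 : ℝ) * (1 / 2) ^ (8 * (m' * a)) ≤ (1 / 2) ^ (4 * (m' * a)) := by
        have e1 : (1 / 2 : ℝ) ^ (8 * (m' * a)) = (1 / 2) ^ (4 * (m' * a)) *
            (1 / 2) ^ (4 * (m' * a)) := by rw [← pow_add]; congr 1; ring
        have e2 : (1 / 2 : ℝ) ^ (4 * (m' * a)) ≤ (1 / 2) ^ 4 :=
          pow_le_pow_of_le_one (by norm_num) (by norm_num) (by omega)
        have e3 : (0 : ℝ) < (1 / 2) ^ (4 * (m' * a)) := by positivity
        rw [e1]
        nlinarith
      refine abs_le_of_sq_le_sq ?_ (by positivity)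
      calc (∑ w : Wt m r (B × Fin m), G ρ w *
          ∑ x : B × Fin m → Bool, chi m (r + 1) B A (Wt.mk x w) * H ρ x w) ^ 2 ≤
            (∑ w : Wt m r (B × Fin m), (G ρ w) ^ 2) * ∑ w : Wt m r (B × Fin m),
          (∑ x : B × Fin m → Bool, chi m (r + 1) B A (Wt.mk x w) * H ρ x w) ^ 2 := hCS
        _ ≤ W * (2 * (1 / 2) ^ (8 * (m' * a)) * (X * X * W)) :=
            mul_le_mul hG hK (Finset.sum_nonneg fun _ _ => sq_nonneg _) (Nat.cast_nonneg _)
        _ ≤ W * ((1 / 2) ^ (4 * (m' * a)) * (X * X * W)) := by
            refine mul_le_mul_of_nonneg_left ?_ (Nat.cast_nonneg _)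
            exact mul_le_mul_of_nonneg_right hpw (by positivity)
        _ = ((1 / 2) ^ (2 * (m' * a)) * (X * W)) ^ 2 := by
            have : (1 / 2 : ℝ) ^ (4 * (m' * a)) = ((1 / 2) ^ (2 * (m' * a))) ^ 2 := by
              rw [← pow_mul]; congr 1; ring
            rw [this]; ring
    -- the number of terms
    have hcard : (PF.card : ℝ) ≤ 2 ^ (m' * a) := by
      have h1 : PF.card ≤ 2 ^ (m' * a) := by
        have e1 : PF.card = (PM lam d (N d)).card ^ Fintype.card ι := by
          show (Fintype.piFinset fun _ : ι => PM lam d (N d)).card = _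
          rw [Fintype.card_piFinset, Finset.prod_const, Finset.card_univ]
        rw [e1]
        calc (PM lam d (N d)).card ^ Fintype.card ι ≤
              ((2 ^ L) ^ N d) ^ Fintype.card ι :=
              Nat.pow_le_pow_left ((card_PM lam d (N d)).trans (Nat.pow_le_pow_left hL _)) _
          _ = 2 ^ (L * N d * Fintype.card ι) := by rw [← pow_mul, ← pow_mul, mul_assoc]
          _ ≤ 2 ^ (m' * a) := by
              refine Nat.pow_le_pow_right (by norm_num) ?_
              have := hcnt 0 (by omega)
              rw [pow_zero, pow_zero, mul_one, mul_one, Nat.add_zero] at this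
              calc L * N d * Fintype.card ι = Fintype.card ι * (N d * L) := by ring
                _ ≤ m' * a := this
      exact_mod_cast h1
    have hfin : |∑ w : Wt m r (B × Fin m), ∑ x : B × Fin m → Bool,
        chi m (r + 1) B A (Wt.mk x w) * ∏ i, ind (Ψ i (rch (Sy i (Wt.mk x w)) e0))| ≤
        (1 / 2 : ℝ) ^ (m' * a) * ((X : ℝ) * (W : ℝ)) := by
      rw [hsum]
      calc _ ≤ ∑ ρ ∈ PF, |∑ w : Wt m r (B × Fin m), G ρ w *
          ∑ x : B × Fin m → Bool, chi m (r + 1) B A (Wt.mk x w) * H ρ x w| :=
            Finset.abs_sum_le_sum_abs _ _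
        _ ≤ ∑ ρ ∈ PF, (1 / 2 : ℝ) ^ (2 * (m' * a)) * ((X : ℝ) * (W : ℝ)) :=
            Finset.sum_le_sum hterm
        _ = (PF.card : ℝ) * ((1 / 2 : ℝ) ^ (2 * (m' * a)) * ((X : ℝ) * (W : ℝ))) := by
            rw [Finset.sum_const, nsmul_eq_mul]
        _ ≤ (2 : ℝ) ^ (m' * a) * ((1 / 2 : ℝ) ^ (2 * (m' * a)) * ((X : ℝ) * (W : ℝ))) :=
            mul_le_mul_of_nonneg_right hcard (by positivity)
        _ = (1 / 2 : ℝ) ^ (m' * a) * ((X : ℝ) * (W : ℝ)) := by
            have : (2 : ℝ) ^ (m' * a) * (1 / 2) ^ (2 * (m' * a)) = (1 / 2) ^ (m' * a) := by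
              rw [two_mul, pow_add, ← mul_assoc, ← mul_pow]
              norm_num
            rw [← mul_assoc, this]
    exact hfin

end Pool.Agent.Det
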