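import Pool.Agent.Lib_helper16.Det.Eval

/-!
Machines disagree with the language on almost half of the special words; the parameters.
-/

set_option autoImplicit false

namespace Pool.Agent.Det

open Pool.Agent.Heads Filter

attribute [local instance] Classical.propDecidable

lemma sum_sv {m m' : ℕ} (k : ℕ) (hm64 : m = 64 * m') (hm : 1 ≤ m') :
    |∑ W : Wt m k Unit, sv m k Unit W ()| ≤ (1 / 2) ^ m' * Fintype.card (Wt m k Unit) := by
  have h := disc (E := Unit) m m' hm64 hm (fun _ => 0) () (fun _ => 0) 2 (by simp)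
    k Unit 1 Empty (fun i => i.elim) (fun i => i.elim) Finset.univ 1 le_rfl (by simp)
    (fun _ => Nat.zero_le _) (fun i => i.elim) (fun i => i.elim)
    (fun j _ => by rw [Fintype.card_empty]; simp)
  have e1 : ∀ W : Wt m k Unit, chi m k Unit Finset.univ W *
      ∏ i : Empty, ind ((fun i : Empty => i.elim : Empty → Finset Unit → Prop) i
        (rch ((fun i : Empty => i.elim : Empty → Wt m k Unit → Unit → Option Unit) i W) ())) =
      sv m k Unit W () := by
    intro W
    rw [Fintype.prod_empty, mul_one]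
    unfold chi
    rw [Fintype.prod_unique]
  rw [Finset.sum_congr rfl fun W _ => e1 W, mul_one] at h
  exact h

variable {k : ℕ} {Q : Type} [Fintype Q]

lemma agree_bound {m m' n t L : ℕ} (hm64 : m = 64 * m') (hm : 1 ≤ m') (hn : (5 * m) ^ k ≤ n)
    (M : LM k Q)
    (hL : Fintype.card (Ec k Q n t) * (Fintype.card (Ec k Q n t) + 1) + 1 ≤ 2 ^ L)
    (hcnt : ∀ j < k, 2 ^ j * (2 ^ j * (t / gap m k j + 1) * L) ≤ m' * (16 * m') ^ j) :
    ((Finset.univ.filter fun W : Wt m k Unit =>
      (wd m k n W ∈ Lang ↔ M.AccIn (wd m k n W) t)).card : ℝ) ≤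
      (1 / 2 + 2 * (1 / 2) ^ m') * Fintype.card (Wt m k Unit) := by
  have h1 := corr hm64 hm M hL hcnt
  have h2 := sum_sv k hm64 hm
  have e1 : ∀ W : Wt m k Unit,
      (if (wd m k n W ∈ Lang ↔ M.AccIn (wd m k n W) t) then (1 : ℝ) else 0) =
      1 / 2 - sv m k Unit W () * ind (M.AccIn (wd m k n W) t) + sv m k Unit W () / 2 := by
    intro W
    have hw := wd_mem m k n hn W
    rcases sv_cases m k Unit W () with hs | hs
    · have hw' : wd m k n W ∉ Lang := by
        rw [hw, hs]; norm_num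
      by_cases hA : M.AccIn (wd m k n W) t
      · rw [if_neg (by simp [hw', hA]), ind_true hA, hs]; norm_num
      · rw [if_pos (by simp [hw', hA]), ind_false hA, hs]; norm_num
    · have hw' : wd m k n W ∈ Lang := by
        rw [hw, hs]
      by_cases hA : M.AccIn (wd m k n W) t
      · rw [if_pos (by simp [hw', hA]), ind_true hA, hs]; norm_num
      · rw [if_neg (by simp [hw', hA]), ind_false hA, hs]; norm_num
  have e2 : ((Finset.univ.filter fun W : Wt m k Unit =>
      (wd m k n W ∈ Lang ↔ M.AccIn (wd m k n W) t)).card : ℝ) =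
      ∑ W : Wt m k Unit, (if (wd m k n W ∈ Lang ↔ M.AccIn (wd m k n W) t) then (1 : ℝ)
        else 0) := by
    rw [Finset.sum_boole]
  rw [e2, Finset.sum_congr rfl fun W _ => e1 W, Finset.sum_add_distrib, Finset.sum_sub_distrib,
    Finset.sum_const, Finset.card_univ, nsmul_eq_mul, ← Finset.sum_div]
  have h1' := (abs_le.1 h1).1
  have h2' := (abs_le.1 h2).2
  have h3 : (0 : ℝ) ≤ (1 / 2) ^ m' * Fintype.card (Wt m k Unit) := by positivity
  nlinarith

lemma card_Ec (n t : ℕ) : Fintype.card (Ec k Q n t) =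
    Fintype.card Q * ((n + 2) ^ k * ((k + 1) * (t + 1))) := by
  rw [Fintype.card_prod, Fintype.card_prod, Fintype.card_prod, Fintype.card_fun,
    Fintype.card_fin, Fintype.card_fin, Fintype.card_fin, Fintype.card_fin]

/-- The arithmetic of the parameters. -/
lemma params_nat {k m' n s t a L : ℕ} (hk : 1 ≤ k) (hm : 1 ≤ m') (hn : (320 * m') ^ k ≤ n)
    (ha : n + 2 ≤ 2 ^ a) (ht : t + 1 ≤ (n + 2) ^ 2) (hkn : k ≤ n)
    (hL : L = 2 * (s + (k + 3) * a) + 2) (hb : (n + t) * L ≤ m' ^ (k + 1)) :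
    (∀ q, q ≤ 2 ^ s → q * ((n + 2) ^ k * ((k + 1) * (t + 1))) *
      (q * ((n + 2) ^ k * ((k + 1) * (t + 1))) + 1) + 1 ≤ 2 ^ L) ∧
    ∀ j < k, 2 ^ j * (2 ^ j * (t / gap (64 * m') k j + 1) * L) ≤ m' * (16 * m') ^ j := by
  constructor
  · intro q hq
    set b := s + (k + 3) * a with hbdef
    have h1 : q * ((n + 2) ^ k * ((k + 1) * (t + 1))) ≤ 2 ^ b := by
      calc q * ((n + 2) ^ k * ((k + 1) * (t + 1))) ≤
            2 ^ s * ((n + 2) ^ k * ((n + 2) * (n + 2) ^ 2)) := by
            refine Nat.mul_le_mul hq (Nat.mul_le_mul_left _ (Nat.mul_le_mul (by omega) ht))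
        _ = 2 ^ s * (n + 2) ^ (k + 3) := by ring
        _ ≤ 2 ^ s * (2 ^ a) ^ (k + 3) := Nat.mul_le_mul_left _ (Nat.pow_le_pow_left ha _)
        _ = 2 ^ b := by rw [← pow_mul, ← pow_add, hbdef]; congr 1; ring
    have h2 : 1 ≤ 2 ^ b := Nat.one_le_two_pow
    calc q * ((n + 2) ^ k * ((k + 1) * (t + 1))) *
          (q * ((n + 2) ^ k * ((k + 1) * (t + 1))) + 1) + 1 ≤ 2 ^ b * (2 ^ b + 1) + 1 :=
          Nat.succ_le_succ (Nat.mul_le_mul h1 (Nat.succ_le_succ h1))
      _ ≤ 2 ^ b * 2 ^ b * 4 := by nlinarith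
      _ = 2 ^ L := by rw [hL]; ring
  · intro j hj
    set g := gap (64 * m') k j with hg
    have hgv : g = 64 * m' * (320 * m') ^ (k - 1 - j) := by
      rw [hg]; unfold gap
      congr 2
      ring
    have hgpos : 0 < g := gap_pos _ _ _ (by omega)
    have hgn : g ≤ n := by
      calc g ≤ (320 * m') * (320 * m') ^ (k - 1 - j) := by
            rw [hgv]; exact Nat.mul_le_mul_right _ (by omega)
        _ = (320 * m') ^ (k - 1 - j + 1) := by ring
        _ ≤ (320 * m') ^ k := Nat.pow_le_pow_right (by omega) (by omega)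
        _ ≤ n := hn
    have h1 : (t / g + 1) * g ≤ t + g := by
      have := Nat.div_mul_le_self t g
      rw [add_mul, one_mul]
      omega
    refine Nat.le_of_mul_le_mul_right ?_ hgpos
    calc 2 ^ j * (2 ^ j * (t / g + 1) * L) * g = 4 ^ j * (((t / g + 1) * g) * L) := by
          rw [show (4 : ℕ) = 2 * 2 by norm_num, mul_pow]; ring
      _ ≤ 4 ^ j * ((n + t) * L) :=
          Nat.mul_le_mul_left _ (Nat.mul_le_mul_right _ (h1.trans (by omega)))
      _ ≤ 4 ^ j * m' ^ (k + 1) := Nat.mul_le_mul_left _ hb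
      _ ≤ 16 ^ j * 320 ^ (k - 1 - j) * 64 * m' ^ (k + 1) := by
          refine Nat.mul_le_mul_right _ ?_
          calc 4 ^ j ≤ 16 ^ j := Nat.pow_le_pow_left (by norm_num) _
            _ = 16 ^ j * 1 := by ring
            _ ≤ 16 ^ j * (320 ^ (k - 1 - j) * 64) := by
                refine Nat.mul_le_mul_left _ ?_
                exact Nat.succ_le_of_lt (by positivity)
            _ = 16 ^ j * 320 ^ (k - 1 - j) * 64 := by ring
      _ = m' * (16 * m') ^ j * g := by
          rw [hgv, mul_pow, mul_pow]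
          have e1 : m' ^ (k + 1) = m' * m' ^ j * m' * m' ^ (k - 1 - j) := by
            rw [← pow_succ', ← pow_succ, ← pow_add]
            congr 1
            omega
          rw [e1]
          ring

/-- The parameters. -/
theorem params (k : ℕ) (hk : 1 ≤ k) : ∃ c : ℝ, 0 < c ∧ c ≤ 1 ∧ ∀ᶠ n : ℕ in atTop,
    ∃ m' : ℕ, 2 ≤ m' ∧ (320 * m') ^ k ≤ n ∧
      2 * (1 / 2 : ℝ) ^ m' ≤ Real.exp (-(c * (n : ℝ) ^ (1 / (k : ℝ)))) ∧
      ∀ s t : ℕ, ((n : ℝ) + t) * (s + Real.log n) ≤ c * (n : ℝ) ^ (1 + 1 / (k : ℝ)) →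
        ∃ L : ℕ, (∀ q, q ≤ 2 ^ s → q * ((n + 2) ^ k * ((k + 1) * (t + 1))) *
          (q * ((n + 2) ^ k * ((k + 1) * (t + 1))) + 1) + 1 ≤ 2 ^ L) ∧
        ∀ j < k, 2 ^ j * (2 ^ j * (t / gap (64 * m') k j + 1) * L) ≤ m' * (16 * m') ^ j := by
  set C : ℝ := (8 * k + 40) * 640 ^ (k + 1) with hC
  have hk0 : (0 : ℝ) < k := by exact_mod_cast hk
  have hk1 : (1 : ℝ) ≤ k := by exact_mod_cast hk
  have hCpos : 0 < C := by positivity
  have hC640 : (640 : ℝ) * 40 ≤ C := by
    have h1 : (640 : ℝ) ^ 1 ≤ 640 ^ (k + 1) := pow_le_pow_right₀ (by norm_num) (by omega)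
    rw [hC]
    nlinarith
  refine ⟨1 / C, by positivity, ?_, ?_⟩
  · rw [div_le_one hCpos]; linarith
  have hlim : Tendsto (fun n : ℕ => (n : ℝ) ^ (1 / (k : ℝ))) atTop atTop :=
    (tendsto_rpow_atTop (by positivity)).comp tendsto_natCast_atTop_atTop
  filter_upwards [hlim.eventually_ge_atTop 1000, eventually_ge_atTop (max k 3)] with n hn1 hn2
  have hnk : k ≤ n := (le_max_left _ _).trans hn2
  have hn3 : 3 ≤ n := (le_max_right _ _).trans hn2
  have hn0 : (0 : ℝ) < n := by
    have : 0 < n := by omega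
    exact_mod_cast this
  have hn3' : (3 : ℝ) ≤ n := by exact_mod_cast hn3
  set y : ℝ := (n : ℝ) ^ (1 / (k : ℝ)) with hy
  have hypos : 0 < y := by linarith
  have hyk : y ^ k = n := by
    rw [hy, ← Real.rpow_natCast, ← Real.rpow_mul hn0.le, one_div,
      inv_mul_cancel₀ hk0.ne', Real.rpow_one]
  have hyk1 : (n : ℝ) ^ (1 + 1 / (k : ℝ)) = y ^ (k + 1) := by
    rw [Real.rpow_add hn0, Real.rpow_one, pow_succ, hyk]
  set m' : ℕ := ⌊y / 320⌋₊ with hm'
  have hm1 : (m' : ℝ) ≤ y / 320 := Nat.floor_le (by positivity)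
  have hm2 : y / 320 < m' + 1 := Nat.lt_floor_add_one _
  have hm3 : (2 : ℝ) < m' := by linarith
  have hm4 : 2 ≤ m' := by
    have : (2 : ℕ) < m' := by exact_mod_cast hm3
    omega
  have hm5 : y ≤ 640 * m' := by linarith
  have hlog1 : 1 ≤ Real.log n := by
    rw [Real.le_log_iff_exp_le hn0]
    have := Real.exp_one_lt_d9
    linarith
  refine ⟨m', hm4, ?_, ?_, ?_⟩
  · have : ((320 * m' : ℕ) : ℝ) ^ k ≤ n := by
      rw [← hyk]
      refine pow_le_pow_left₀ (by positivity) ?_ _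
      push_cast
      linarith
    exact_mod_cast this
  · have e1 : 2 * (1 / 2 : ℝ) ^ m' = Real.exp (-((m' - 1 : ℝ) * Real.log 2)) := by
      have h1 : (1 / 2 : ℝ) ^ m' = Real.exp (-(m' * Real.log 2)) := by
        rw [one_div, inv_pow, Real.exp_neg, mul_comm, Real.exp_mul,
          Real.exp_log (by norm_num), Real.rpow_natCast]
      have h2 : (2 : ℝ) = Real.exp (Real.log 2) := (Real.exp_log (by norm_num)).symm
      rw [h1]
      conv_lhs => rw [h2]
      rw [← Real.exp_add]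
      congr 1
      rw [Real.exp_log (by norm_num)]
      ring
    rw [e1, Real.exp_le_exp]
    have h2 : (0.6931471803 : ℝ) < Real.log 2 := Real.log_two_gt_d9
    have h3 : 1 / C * y ≤ m' / 40 := by
      rw [one_div, inv_mul_le_iff₀ hCpos]
      nlinarith
    nlinarith
  · intro s t hst
    set a : ℕ := Nat.log 2 (n + 2) + 1 with ha
    have ha1 : n + 2 ≤ 2 ^ a := (Nat.lt_pow_succ_log_self (by norm_num) _).le
    have ha2 : (a : ℝ) ≤ 4 * Real.log n := by
      have h1 : ((Nat.log 2 (n + 2) : ℕ) : ℝ) * Real.log 2 ≤ Real.log (n + 2) := by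
        rw [← Real.log_pow]
        refine Real.log_le_log (by positivity) ?_
        have : 2 ^ Nat.log 2 (n + 2) ≤ n + 2 := Nat.pow_log_le_self 2 (by omega)
        exact_mod_cast this
      have h2 : Real.log (n + 2) ≤ 2 * Real.log n := by
        rw [← Real.log_rpow hn0]
        refine Real.log_le_log (by positivity) ?_
        rw [Real.rpow_two]
        nlinarith
      have h3 : (0.6931471803 : ℝ) < Real.log 2 := Real.log_two_gt_d9
      have h4 : ((Nat.log 2 (n + 2) : ℕ) : ℝ) ≤ 3 * Real.log n := by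
        by_contra hcon
        push Not at hcon
        nlinarith
      rw [ha]
      push_cast
      linarith
    have hs0 : (0 : ℝ) ≤ s := Nat.cast_nonneg _
    have ht0 : (0 : ℝ) ≤ t := Nat.cast_nonneg _
    have hn2 : (n : ℝ) ^ (1 + 1 / (k : ℝ)) ≤ (n : ℝ) ^ 2 := by
      rw [← Real.rpow_two]
      refine Real.rpow_le_rpow_of_exponent_le (by linarith) ?_
      have : 1 / (k : ℝ) ≤ 1 := by rw [div_le_one hk0]; exact hk1
      linarith
    have hpos : 0 ≤ (n : ℝ) ^ (1 + 1 / (k : ℝ)) := by positivity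
    have hC1 : 1 / C ≤ 1 := by rw [div_le_one hCpos]; linarith
    have ht : t + 1 ≤ (n + 2) ^ 2 := by
      have h1 : ((n : ℝ) + t) * 1 ≤ ((n : ℝ) + t) * (s + Real.log n) :=
        mul_le_mul_of_nonneg_left (by linarith) (by positivity)
      have h2 : 1 / C * (n : ℝ) ^ (1 + 1 / (k : ℝ)) ≤ (n : ℝ) ^ 2 := by
        calc 1 / C * (n : ℝ) ^ (1 + 1 / (k : ℝ)) ≤ 1 * (n : ℝ) ^ (1 + 1 / (k : ℝ)) :=
              mul_le_mul_of_nonneg_right hC1 hpos
          _ ≤ _ := by rw [one_mul]; exact hn2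
      have h3 : (t : ℝ) + 1 ≤ ((n : ℝ) + 2) ^ 2 := by nlinarith
      exact_mod_cast h3
    refine ⟨2 * (s + (k + 3) * a) + 2, ?_⟩
    refine params_nat hk (by omega) ?_ ha1 ht hnk rfl ?_
    · have : ((320 * m' : ℕ) : ℝ) ^ k ≤ n := by
        rw [← hyk]
        refine pow_le_pow_left₀ (by positivity) ?_ _
        push_cast
        linarith
      exact_mod_cast this
    · have h1 : ((2 * (s + (k + 3) * a) + 2 : ℕ) : ℝ) ≤ (8 * k + 40) * (s + Real.log n) := by
        push_cast
        nlinarith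
      have h2 : (((n + t) * (2 * (s + (k + 3) * a) + 2) : ℕ) : ℝ) ≤ (m' : ℝ) ^ (k + 1) := by
        push_cast
        push_cast at h1
        calc ((n : ℝ) + t) * (2 * (s + (k + 3) * a) + 2) ≤
              ((n : ℝ) + t) * ((8 * k + 40) * (s + Real.log n)) :=
              mul_le_mul_of_nonneg_left h1 (by positivity)
          _ = (8 * k + 40) * (((n : ℝ) + t) * (s + Real.log n)) := by ring
          _ ≤ (8 * k + 40) * (1 / C * (n : ℝ) ^ (1 + 1 / (k : ℝ))) :=
              mul_le_mul_of_nonneg_left hst (by positivity)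
          _ = y ^ (k + 1) / 640 ^ (k + 1) := by
              rw [hyk1, hC]
              field_simp
          _ ≤ (m' : ℝ) ^ (k + 1) := by
              rw [div_le_iff₀ (by positivity), ← mul_pow]
              refine pow_le_pow_left₀ hypos.le ?_ _
              linarith
      exact_mod_cast h2

end Pool.Agent.Det
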