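import Mathlib

/-!
A discrepancy bound for deterministic systems whose steps are blind to one of several groups of
bits, the numbers of steps of the different types being bounded separately.
-/

set_option autoImplicit false

namespace Pool.Agent.Det

open Finset

attribute [local instance] Classical.propDecidable

/-! ### Groups of bits -/

/-- The bits: one bit for each child of the bases, then those of the children, and so on; at the
end one bit for each leaf. -/
def Wt (m : ℕ) : ℕ → Type → Type
  | 0, B => B → Bool
  | r + 1, B => (B × Fin m → Bool) × Wt m r (B × Fin m)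

noncomputable instance Wt.fintype (m : ℕ) : ∀ (r : ℕ) (B : Type) [Fintype B], Fintype (Wt m r B)
  | 0, B, _ => inferInstanceAs (Fintype (B → Bool))
  | r + 1, B, _ =>
    have := Wt.fintype m r (B × Fin m)
    inferInstanceAs (Fintype ((B × Fin m → Bool) × Wt m r (B × Fin m)))

/-- An assignment to the bits, from the bits of the first group and the others. -/
def Wt.mk {m r : ℕ} {B : Type} (x : B × Fin m → Bool) (w : Wt m r (B × Fin m)) :
    Wt m (r + 1) B := (x, w)

/-- The two assignments agree off group `i`. -/
def Agree (m : ℕ) : (r : ℕ) → (B : Type) → ℕ → Wt m r B → Wt m r B → Prop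
  | 0, _, i, y, y' => i = 0 ∨ y = y'
  | _ + 1, _, 0, w, w' => w.2 = w'.2
  | r + 1, B, i + 1, w, w' => w.1 = w'.1 ∧ Agree m r (B × Fin m) i w.2 w'.2

/-- The sign of the value at a base. -/
noncomputable def sv (m : ℕ) : (r : ℕ) → (B : Type) → Wt m r B → B → ℝ
  | 0, _, y, b => if y b then -1 else 1
  | r + 1, B, w, b => ∏ i : Fin m, if w.1 (b, i) then sv m r (B × Fin m) w.2 (b, i) else 1

lemma sv_cases (m r : ℕ) : ∀ (B : Type) (w : Wt m r B) (b : B),
    sv m r B w b = 1 ∨ sv m r B w b = -1 := by
  induction r with
  | zero =>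
    intro B y b
    by_cases h : (y : B → Bool) b
    · right; simp [sv, h]
    · left; simp [sv, h]
  | succ r ih =>
    intro B w b
    have key : ∀ s : Finset (Fin m),
        (∏ i ∈ s, if w.1 (b, i) then sv m r (B × Fin m) w.2 (b, i) else (1 : ℝ)) = 1 ∨
        (∏ i ∈ s, if w.1 (b, i) then sv m r (B × Fin m) w.2 (b, i) else (1 : ℝ)) = -1 := by
      intro s
      induction s using Finset.induction_on with
      | empty => left; simp
      | insert i s hi ihs =>
        rw [Finset.prod_insert hi]
        have h1 : (if w.1 (b, i) then sv m r (B × Fin m) w.2 (b, i) else (1 : ℝ)) = 1 ∨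
            (if w.1 (b, i) then sv m r (B × Fin m) w.2 (b, i) else (1 : ℝ)) = -1 := by
          split_ifs
          · exact ih _ _ _
          · left; rfl
        rcases h1 with h1 | h1 <;> rcases ihs with h2 | h2 <;> rw [h1, h2] <;> norm_num
    exact key Finset.univ

lemma sv_sq (m r : ℕ) (B : Type) (w : Wt m r B) (b : B) :
    sv m r B w b * sv m r B w b = 1 := by
  rcases sv_cases m r B w b with h | h <;> rw [h] <;> norm_num

/-- The sign of the sum of the values over the bases in `A`. -/
noncomputable def chi (m r : ℕ) (B : Type) (A : Finset B) (w : Wt m r B) : ℝ :=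
  ∏ b ∈ A, sv m r B w b

lemma chi_cases (m r : ℕ) (B : Type) (A : Finset B) (w : Wt m r B) :
    chi m r B A w = 1 ∨ chi m r B A w = -1 := by
  unfold chi
  induction A using Finset.induction_on with
  | empty => left; simp
  | insert i s hi ihs =>
    rw [Finset.prod_insert hi]
    rcases sv_cases m r B w i with h1 | h1 <;> rcases ihs with h2 | h2 <;> rw [h1, h2] <;>
      norm_num

lemma abs_chi (m r : ℕ) (B : Type) (A : Finset B) (w : Wt m r B) :
    |chi m r B A w| = 1 := by
  rcases chi_cases m r B A w with h | h <;> rw [h] <;> norm_num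

lemma chi_mul (m r : ℕ) (B : Type) [Fintype B] (A A' C : Finset B)
    (hC : ∀ b, b ∈ C ↔ ¬ (b ∈ A ↔ b ∈ A')) (w : Wt m r B) :
    chi m r B A w * chi m r B A' w = chi m r B C w := by
  have key : ∀ D : Finset B, chi m r B D w = ∏ b : B, if b ∈ D then sv m r B w b else 1 := by
    intro D
    unfold chi
    rw [← Finset.prod_filter]
    refine Finset.prod_congr ?_ fun b _ => rfl
    ext b; simp
  rw [key, key, key, ← Finset.prod_mul_distrib]
  refine Finset.prod_congr rfl fun b _ => ?_
  by_cases h1 : b ∈ A <;> by_cases h2 : b ∈ A'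
  · rw [if_pos h1, if_pos h2, if_neg (by rw [hC]; simp [h1, h2]), sv_sq]
  · rw [if_pos h1, if_neg h2, if_pos (by rw [hC]; simp [h1, h2]), mul_one]
  · rw [if_neg h1, if_pos h2, if_pos (by rw [hC]; simp [h1, h2]), one_mul]
  · rw [if_neg h1, if_neg h2, if_neg (by rw [hC]; simp [h1, h2]), one_mul]

/-- The active children. -/
noncomputable def act {B : Type} [Fintype B] {m : ℕ} (A : Finset B) (x : B × Fin m → Bool) :
    Finset (B × Fin m) :=
  Finset.univ.filter fun p => p.1 ∈ A ∧ x p = true

lemma chi_succ (m r : ℕ) (B : Type) [Fintype B] (A : Finset B) (x : B × Fin m → Bool)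
    (w : Wt m r (B × Fin m)) :
    chi m (r + 1) B A (Wt.mk x w) = chi m r (B × Fin m) (act A x) w := by
  unfold chi act
  have e1 : (Finset.univ.filter fun p : B × Fin m => p.1 ∈ A ∧ x p = true) =
      (A ×ˢ (Finset.univ : Finset (Fin m))).filter fun p => x p = true := by
    ext p
    simp
  rw [e1, Finset.prod_filter, Finset.prod_product]
  rfl

end Pool.Agent.Det
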