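import Pool.Agent.Lib_helper16.Det.Eval

/-!
A deterministic one-way pushdown automaton for the language.
-/

set_option autoImplicit false

namespace Pool.Agent.Det

open Pool.Agent.Heads

/-- The transitions; the state `none` is the accepting state. -/
def eδ : Option (Bool × Bool) → Sym Lt → Option Bool →
    Option (Option (Bool × Bool) × (Fin 1 → Dir) × Op Bool)
  | some s, Sym.left, _ => some (some s, fun _ => Dir.R, Op.none)
  | some (p, v), Sym.letter (Lt.push b), _ =>
      some (some (p, v), fun _ => Dir.R, Op.push (p && b))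
  | some (_, v), Sym.letter Lt.pop, some q => some (some (q, v), fun _ => Dir.R, Op.pop)
  | some (_, v), Sym.letter Lt.pop, none => some (some (false, v), fun _ => Dir.R, Op.none)
  | some (p, v), Sym.letter (Lt.leaf b), _ =>
      some (some (p, xor v (p && b)), fun _ => Dir.R, Op.none)
  | some s, Sym.letter Lt.pad, _ => some (some s, fun _ => Dir.R, Op.none)
  | some (_, true), Sym.right, _ => some (none, fun _ => Dir.S, Op.none)
  | some (_, false), Sym.right, _ => none
  | none, _, _ => none

/-- The automaton. -/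
def evPDA : PDA Lt 1 where
  Q := Option (Bool × Bool)
  Γ := Bool
  finQ := inferInstance
  finΓ := inferInstance
  start := some (true, false)
  accept := {none}
  δ := fun q x g => {t | eδ q (x 0) g = some t}

lemma evPDA_det : evPDA.Det := by
  intro q x g a ha b hb
  have ha' : eδ q (x 0) g = some a := ha
  have hb' : eδ q (x 0) g = some b := hb
  rw [ha'] at hb'
  exact Option.some.inj hb'

/-- Configurations. -/
abbrev Cf : Type := Cfg (Option (Bool × Bool)) (Fin 1 → ℕ) Bool

lemma evPDA_step (w : List Lt) (c c' : Cf) :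
    evPDA.Step w c c' ↔ ∃ t, eδ c.state (tape w (c.pos 0)) c.stack.head? = some t ∧
      c' = ⟨t.1, fun i => move (w.length + 1) (c.pos i) (t.2.1 i), t.2.2.apply c.stack⟩ :=
  Iff.rfl

lemma ev_take_succ {w : List Lt} {t : ℕ} {a : Lt} (h : w[t]? = some a)
    (s : Bool × Bool × List Bool) : ev (w.take (t + 1)) s = exec a (ev (w.take t) s) := by
  unfold ev
  rw [List.take_add_one, h, List.foldl_append]
  rfl

lemma tape_letter' {w : List Lt} {t : ℕ} {a : Lt} (h : w[t]? = some a) :
    tape w (t + 1) = Sym.letter a := by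
  simp only [tape, h]

lemma tape_end' {w : List Lt} : tape w (w.length + 1) = Sym.right := by
  have h : w[w.length]? = none := List.getElem?_eq_none le_rfl
  simp only [tape, h]

/-- The configuration after `t + 1` steps. -/
def mk (s : Bool × Bool × List Bool) (t : ℕ) : Cf := ⟨some (s.1, s.2.1), fun _ => t, s.2.2⟩

lemma step_left (w : List Lt) (s : Bool × Bool × List Bool) (c' : Cf) :
    evPDA.Step w (mk s 0) c' ↔ c' = mk s 1 := by
  rw [evPDA_step]
  obtain ⟨p, v, σ⟩ := s
  have h1 : eδ (some (p, v)) (tape w 0) σ.head? =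
      some (some (p, v), fun _ => Dir.R, Op.none) := by cases σ <;> rfl
  have h2 : (⟨some (p, v), fun _ => move (w.length + 1) 0 Dir.R, σ⟩ : Cf) = mk (p, v, σ) 1 := by
    have : move (w.length + 1) 0 Dir.R = 1 := by simp only [move]; omega
    rw [this]; rfl
  constructor
  · rintro ⟨t, ht, rfl⟩
    have ht' : eδ (some (p, v)) (tape w 0) σ.head? = some t := ht
    rw [h1] at ht'
    obtain rfl := Option.some.inj ht'
    exact h2
  · rintro rfl
    exact ⟨_, h1, h2.symm⟩

lemma step_letter (w : List Lt) (s : Bool × Bool × List Bool) (t : ℕ) (a : Lt)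
    (ha : w[t]? = some a) (c' : Cf) :
    evPDA.Step w (mk s (t + 1)) c' ↔ c' = mk (exec a s) (t + 2) := by
  rw [evPDA_step]
  obtain ⟨p, v, σ⟩ := s
  have ht : t < w.length := by
    by_contra hcon
    rw [List.getElem?_eq_none (by omega)] at ha
    exact absurd ha (by simp)
  have hmv : move (w.length + 1) (t + 1) Dir.R = t + 2 := by simp only [move]; omega
  have key : ∃ tr, eδ (some (p, v)) (Sym.letter a) σ.head? = some tr ∧
      (⟨tr.1, fun i => move (w.length + 1) (t + 1) (tr.2.1 i), tr.2.2.apply σ⟩ : Cf) =
        mk (exec a (p, v, σ)) (t + 2) := by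
    cases a with
    | push b =>
      refine ⟨(some (p, v), fun _ => Dir.R, Op.push (p && b)), by cases σ <;> rfl, ?_⟩
      rw [← hmv]; rfl
    | pop =>
      cases σ with
      | nil =>
        refine ⟨(some (false, v), fun _ => Dir.R, Op.none), rfl, ?_⟩
        rw [← hmv]; rfl
      | cons q σ =>
        refine ⟨(some (q, v), fun _ => Dir.R, Op.pop), rfl, ?_⟩
        rw [← hmv]; rfl
    | leaf b =>
      refine ⟨(some (p, xor v (p && b)), fun _ => Dir.R, Op.none), by cases σ <;> rfl, ?_⟩
      rw [← hmv]; rfl
    | pad =>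
      refine ⟨(some (p, v), fun _ => Dir.R, Op.none), by cases σ <;> rfl, ?_⟩
      rw [← hmv]; rfl
  obtain ⟨tr, h1, h2⟩ := key
  constructor
  · rintro ⟨tr', ht', rfl⟩
    have ht'' : eδ (some (p, v)) (tape w (t + 1)) σ.head? = some tr' := ht'
    rw [tape_letter' ha, h1] at ht''
    obtain rfl := Option.some.inj ht''
    exact h2
  · rintro rfl
    refine ⟨tr, ?_, h2.symm⟩
    show eδ (some (p, v)) (tape w (t + 1)) σ.head? = some tr
    rw [tape_letter' ha]
    exact h1

lemma step_end (w : List Lt) (s : Bool × Bool × List Bool) (c' : Cf) :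
    evPDA.Step w (mk s (w.length + 1)) c' ↔
      s.2.1 = true ∧ c' = ⟨none, fun _ => w.length + 1, s.2.2⟩ := by
  rw [evPDA_step]
  obtain ⟨p, v, σ⟩ := s
  constructor
  · rintro ⟨tr, ht, rfl⟩
    have ht' : eδ (some (p, v)) (tape w (w.length + 1)) σ.head? = some tr := ht
    rw [tape_end'] at ht'
    cases v with
    | false =>
      have h3 : eδ (some (p, false)) Sym.right σ.head? = none := by cases p <;> cases σ <;> rfl
      rw [h3] at ht'
      exact absurd ht' (by simp)
    | true =>
      have h3 : eδ (some (p, true)) Sym.right σ.head? =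
          some (none, fun _ => Dir.S, Op.none) := by cases p <;> cases σ <;> rfl
      rw [h3] at ht'
      obtain rfl := Option.some.inj ht'
      exact ⟨rfl, rfl⟩
  · rintro ⟨hv, rfl⟩
    have hv' : v = true := hv
    subst hv'
    refine ⟨(none, fun _ => Dir.S, Op.none), ?_, rfl⟩
    show eδ (some (p, true)) (tape w (w.length + 1)) σ.head? = _
    rw [tape_end']
    cases p <;> cases σ <;> rfl

lemma step_acc (w : List Lt) (c c' : Cf) (h : c.state = none) : ¬ evPDA.Step w c c' := by
  rw [evPDA_step, h]
  rintro ⟨t, ht, -⟩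
  exact absurd ht (by simp [eδ])

/-- The start of the evaluation. -/
def s0 : Bool × Bool × List Bool := (true, false, [])

/-- The computation. -/
lemma evPDA_reach (w : List Lt) (t : ℕ) : ∀ c, evPDA.Reach w t c →
    (t ≤ w.length + 1 ∧ c = mk (ev (w.take (t - 1)) s0) t) ∨
    (t = w.length + 2 ∧ c.state = none ∧ c.pos 0 = w.length + 1 ∧
      (ev w s0).2.1 = true) := by
  intro c h
  induction h with
  | zero => exact Or.inl ⟨Nat.zero_le _, rfl⟩
  | @succ t c c' h1 h2 ih =>
    rcases ih with ⟨h3, rfl⟩ | ⟨-, h3, -, -⟩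
    · cases t with
      | zero =>
        have h2' := (step_left w _ _).1 h2
        exact Or.inl ⟨by omega, h2'⟩
      | succ t =>
        rcases Nat.lt_or_ge t w.length with hlt | hge
        · obtain ⟨a, ha⟩ : ∃ a, w[t]? = some a := ⟨w[t], List.getElem?_eq_getElem hlt⟩
          have h2' := (step_letter w _ t a ha _).1 h2
          left
          refine ⟨by omega, ?_⟩
          rw [h2', show t + 1 + 1 - 1 = t + 1 by omega, ev_take_succ ha]
          rfl
        · have ht : t = w.length := by omega
          subst ht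
          obtain ⟨h4, h5⟩ := (step_end w _ _).1 h2
          right
          rw [show w.length + 1 - 1 = w.length by omega, List.take_length] at h4
          rw [h5]
          exact ⟨rfl, rfl, rfl, h4⟩
    · exact absurd h2 (step_acc w c c' h3)

lemma evPDA_run (w : List Lt) (t : ℕ) : t ≤ w.length →
    evPDA.Reach w (t + 1) (mk (ev (w.take t) s0) (t + 1)) := by
  induction t with
  | zero =>
    intro _
    refine PDA.Reach.succ PDA.Reach.zero ?_
    exact (step_left w s0 _).2 rfl
  | succ t ih =>
    intro ht
    obtain ⟨a, ha⟩ : ∃ a, w[t]? = some a := ⟨w[t], List.getElem?_eq_getElem (by omega)⟩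
    refine PDA.Reach.succ (ih (by omega)) ?_
    rw [step_letter w _ t a ha, ev_take_succ ha]

lemma evPDA_lang : evPDA.lang = Lang := by
  ext w
  constructor
  · rintro ⟨t, c, h1, h2⟩
    have h2' : c.state = none := h2
    rcases evPDA_reach w t c h1 with ⟨-, rfl⟩ | ⟨-, -, -, h3⟩
    · exact absurd h2' (by simp [mk])
    · exact h3
  · intro hw
    have h1 := evPDA_run w w.length le_rfl
    rw [List.take_length] at h1
    refine ⟨w.length + 1 + 1, ⟨none, fun _ => w.length + 1, (ev w s0).2.2⟩,
      PDA.Reach.succ h1 ?_, rfl⟩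
    exact (step_end w _ _).2 ⟨hw, rfl⟩

/-- The head moves right at every step, until it is on the right endmarker. -/
lemma evPDA_pos (w : List Lt) (t : ℕ) (c : Cf) (h : evPDA.Reach w t c) :
    c.pos 0 = min t (w.length + 1) ∧ t ≤ w.length + 2 := by
  rcases evPDA_reach w t c h with ⟨h1, rfl⟩ | ⟨h1, -, h2, -⟩
  · show t = min t (w.length + 1) ∧ t ≤ w.length + 2
    omega
  · omega

end Pool.Agent.Det
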