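import Pool.Agent.Lib_helper16.Det.Mach

/-!
The language, and its words of the special form.
-/

set_option autoImplicit false

namespace Pool.Agent.Det

/-- The effect of a letter on the control bits `(p, v)` and the stack. -/
def exec : Lt → Bool × Bool × List Bool → Bool × Bool × List Bool
  | Lt.push b, (p, v, s) => (p, v, (p && b) :: s)
  | Lt.pop, (_, v, []) => (false, v, [])
  | Lt.pop, (_, v, q :: s) => (q, v, s)
  | Lt.leaf b, (p, v, s) => (p, xor v (p && b), s)
  | Lt.pad, s => s

/-- The effect of a word. -/
def ev (w : List Lt) (s : Bool × Bool × List Bool) : Bool × Bool × List Bool :=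
  w.foldl (fun s a => exec a s) s

/-- The language. -/
def Lang : Set (List Lt) := {w | (ev w (true, false, [])).2.1 = true}

/-- The effect of the letters at the places `a, …, a + l - 1`. -/
def rn (f : ℕ → Lt) (a : ℕ) : ℕ → Bool × Bool × List Bool → Bool × Bool × List Bool
  | 0, s => s
  | l + 1, s => exec (f (a + l)) (rn f a l s)

lemma ev_range (f : ℕ → Lt) (n : ℕ) (s : Bool × Bool × List Bool) :
    ev ((List.range n).map f) s = rn f 0 n s := by
  induction n with
  | zero => rfl
  | succ n ih =>
    unfold ev at ih ⊢
    rw [List.range_succ, List.map_append, List.foldl_append, ih]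
    simp [rn]

lemma rn_add (f : ℕ → Lt) (a l l' : ℕ) (s : Bool × Bool × List Bool) :
    rn f a (l + l') s = rn f (a + l) l' (rn f a l s) := by
  induction l' with
  | zero => rfl
  | succ l' ih =>
    show exec (f (a + (l + l'))) (rn f a (l + l') s) =
      exec (f (a + l + l')) (rn f (a + l) l' (rn f a l s))
    rw [ih, add_assoc]

lemma rn_congr (f f' : ℕ → Lt) (a a' l : ℕ) (h : ∀ p < l, f (a + p) = f' (a' + p))
    (s : Bool × Bool × List Bool) : rn f a l s = rn f' a' l s := by
  induction l with
  | zero => rfl
  | succ l ih =>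
    show exec (f (a + l)) (rn f a l s) = exec (f' (a' + l)) (rn f' a' l s)
    rw [h l (by omega), ih fun p hp => h p (by omega)]

lemma rn_pad (f : ℕ → Lt) (a l : ℕ) (h : ∀ p < l, f (a + p) = Lt.pad)
    (s : Bool × Bool × List Bool) : rn f a l s = s := by
  induction l with
  | zero => rfl
  | succ l ih =>
    show exec (f (a + l)) (rn f a l s) = s
    rw [h l (by omega), ih fun p hp => h p (by omega)]
    rfl

lemma rn_slot (f : ℕ → Lt) (a l : ℕ) (A : Lt) (hl : 0 < l)
    (h : ∀ p < l, f (a + p) = if p = 0 then A else Lt.pad)
    (s : Bool × Bool × List Bool) : rn f a l s = exec A s := by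
  obtain ⟨l, rfl⟩ : ∃ l', l = 1 + l' := ⟨l - 1, by omega⟩
  rw [rn_add]
  have h1 : rn f a 1 s = exec A s := by
    show exec (f (a + 0)) s = exec A s
    rw [h 0 (by omega), if_pos rfl]
  rw [h1]
  refine rn_pad _ _ _ ?_ _
  intro p hp
  rw [add_assoc, h (1 + p) (by omega), if_neg (by omega)]

/-- The sign of a bit. -/
noncomputable def sb (v : Bool) : ℝ := if v then -1 else 1

lemma sb_xor (v u : Bool) : sb (xor v u) = sb v * sb u := by
  cases v <;> cases u <;> norm_num [sb]

/-- The stack after `s` pushes. -/
def Kc (x : ℕ → Bool) (m : ℕ) (p : Bool) (σ : List Bool) : ℕ → List Bool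
  | 0 => σ
  | s + 1 => (p && x (m - 1 - s)) :: Kc x m p σ s

/-- The effect of the part belonging to a base. -/
lemma rn_part (m r : ℕ) : ∀ (B : Type) (w : Wt m r B) (b : B) (p v : Bool) (σ : List Bool),
    ∃ p' v', rn (lt m r B w b) 0 ((5 * m) ^ r) (p, v, σ) = (p', v', σ) ∧
      sb v' = sb v * (if p then sv m r B w b else 1) := by
  induction r with
  | zero =>
    intro B w b p v σ
    refine ⟨p, xor v (p && (w : B → Bool) b), rfl, ?_⟩
    rw [sb_xor]
    congr 1
    cases p
    · rfl
    · show sb (true && (w : B → Bool) b) = if true = true then sv m 0 B w b else 1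
      rw [if_pos rfl, Bool.true_and]
      rfl
  | succ r ih =>
    intro B w b p v σ
    rcases Nat.eq_zero_or_pos m with hm0 | hm
    · subst hm0
      refine ⟨p, v, by simp [rn], ?_⟩
      have : sv 0 (r + 1) B w b = 1 := by
        unfold sv
        exact Fintype.prod_empty _
      rw [this]
      split_ifs <;> rw [mul_one]
    set l := (5 * m) ^ r with hl
    have hlpos : 0 < l := by positivity
    have hlen : (5 * m) ^ (r + 1) = 5 * m * l := by rw [hl]; ring
    set f := lt m (r + 1) B w b with hf
    let x : ℕ → Bool := fun i => if h : i < m then w.1 (b, ⟨i, h⟩) else false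
    -- one more slot
    have hslot : ∀ s st, rn f 0 ((s + 1) * l) st = rn f (s * l) l (rn f 0 (s * l) st) := by
      intro s st
      rw [add_mul, one_mul, rn_add, Nat.zero_add]
    -- the pushes
    have h1 : ∀ s ≤ m, rn f 0 (s * l) (p, v, σ) = (p, v, Kc x m p σ s) := by
      intro s
      induction s with
      | zero => intro _; rw [zero_mul]; rfl
      | succ s ihs =>
        intro hs
        rw [hslot, ihs (by omega)]
        rw [rn_slot f (s * l) l (Lt.push (x (m - 1 - s))) hlpos]
        · rfl
        · intro q hq
          have := lt_push r B w b s q (by omega) hq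
          rw [← hl, ← hf] at this
          rw [this]
          have hx : x (m - 1 - s) = w.1 (b, ⟨m - 1 - s, idx1 (by omega)⟩) := by
            show (if h : m - 1 - s < m then w.1 (b, ⟨m - 1 - s, h⟩) else false) = _
            rw [dif_pos (by omega)]
          rw [hx]
    have h2 : ∀ s ≤ m, rn f 0 ((m + s) * l) (p, v, σ) = (p, v, Kc x m p σ m) := by
      intro s
      induction s with
      | zero => intro _; rw [Nat.add_zero]; exact h1 m le_rfl
      | succ s ihs =>
        intro hs
        rw [← add_assoc, hslot, ihs (by omega)]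
        refine rn_pad f _ _ ?_ _
        intro q hq
        have := lt_pad1 r B w b (m + s) q (by omega) (by omega) hq
        rw [← hl, ← hf] at this
        exact this
    -- the children
    have h3 : ∀ c ≤ m, ∃ p' v', rn f 0 ((2 * m + 2 * c) * l) (p, v, σ) =
        (p', v', Kc x m p σ (m - c)) ∧ sb v' = sb v * ∏ i ∈ Finset.range c,
          (if h : i < m then (if p then (if w.1 (b, ⟨i, h⟩) then
            sv m r (B × Fin m) w.2 (b, ⟨i, h⟩) else 1) else 1) else (1 : ℝ)) := by
      intro c
      induction c with
      | zero =>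
        intro _
        refine ⟨p, v, ?_, by simp⟩
        have := h2 m le_rfl
        rw [show 2 * m + 2 * 0 = m + m by ring, Nat.sub_zero]
        exact this
      | succ c ihc =>
        intro hc
        obtain ⟨p1, v1, e1, e2⟩ := ihc (by omega)
        have e3 : rn f 0 ((2 * m + 2 * c + 1) * l) (p, v, σ) =
            (p && x c, v1, Kc x m p σ (m - (c + 1))) := by
          rw [hslot, e1, rn_slot f ((2 * m + 2 * c) * l) l Lt.pop hlpos]
          · have e4 : m - c = (m - (c + 1)) + 1 := by omega
            rw [e4]
            show ((p && x (m - 1 - (m - (c + 1)))), v1, Kc x m p σ (m - (c + 1))) = _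
            rw [show m - 1 - (m - (c + 1)) = c by omega]
          · intro q hq
            have := lt_pop r B w b c q (by omega) hq
            rw [← hl, ← hf] at this
            exact this
        obtain ⟨p2, v2, e5, e6⟩ := ih (B × Fin m) w.2 (b, ⟨c, by omega⟩) (p && x c) v1
          (Kc x m p σ (m - (c + 1)))
        refine ⟨p2, v2, ?_, ?_⟩
        · rw [show 2 * m + 2 * (c + 1) = (2 * m + 2 * c + 1) + 1 by ring, hslot, e3, ← e5]
          refine rn_congr _ _ _ _ _ ?_ _
          intro q hq
          have := lt_inner r B w b ⟨c, by omega⟩ q hq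
          rw [← hl, ← hf] at this
          rw [Nat.zero_add]
          exact this
        · rw [e6, e2, Finset.prod_range_succ, ← mul_assoc]
          congr 1
          have hcm : c < m := by omega
          rw [dif_pos hcm]
          have hx : x c = w.1 (b, ⟨c, hcm⟩) := by
            show (if h : c < m then w.1 (b, ⟨c, h⟩) else false) = _
            rw [dif_pos hcm]
          rw [hx]
          cases p <;> cases w.1 (b, ⟨c, hcm⟩) <;> simp
    obtain ⟨p', v', e1, e2⟩ := h3 m le_rfl
    have h4 : ∀ s ≤ m, rn f 0 ((4 * m + s) * l) (p, v, σ) = (p', v', σ) := by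
      intro s
      induction s with
      | zero =>
        intro _
        rw [show 4 * m + 0 = 2 * m + 2 * m by ring, e1, Nat.sub_self]
        rfl
      | succ s ihs =>
        intro hs
        rw [← add_assoc, hslot, ihs (by omega)]
        refine rn_pad f _ _ ?_ _
        intro q hq
        have := lt_pad2 r B w b (4 * m + s) q (by omega) hq
        rw [← hl, ← hf] at this
        exact this
    refine ⟨p', v', ?_, ?_⟩
    · rw [hlen, show 5 * m = 4 * m + m by ring]
      exact h4 m le_rfl
    · rw [e2]
      congr 1
      rw [Finset.prod_range]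
      cases p
      · rw [if_neg (by simp)]
        refine Finset.prod_eq_one ?_
        intro i _
        rw [dif_pos i.2, if_neg (by simp)]
      · rw [if_pos rfl]
        show _ = ∏ i : Fin m, if w.1 (b, i) then sv m r (B × Fin m) w.2 (b, i) else 1
        refine Finset.prod_congr rfl ?_
        intro i _
        rw [dif_pos i.2, if_pos rfl]

/-- The special words in the language. -/
lemma wd_mem (m k n : ℕ) (hn : (5 * m) ^ k ≤ n) (W : Wt m k Unit) :
    wd m k n W ∈ Lang ↔ sv m k Unit W () = -1 := by
  have h1 : ev (wd m k n W) (true, false, []) =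
      rn (fun p => if p < (5 * m) ^ k then lt m k Unit W () p else Lt.pad) 0 n
        (true, false, []) := ev_range _ _ _
  obtain ⟨p', v', e1, e2⟩ := rn_part m k Unit W () true false []
  have h2 : rn (fun p => if p < (5 * m) ^ k then lt m k Unit W () p else Lt.pad) 0 n
      (true, false, []) = (p', v', []) := by
    obtain ⟨d, rfl⟩ : ∃ d, n = (5 * m) ^ k + d := ⟨n - (5 * m) ^ k, by omega⟩
    rw [rn_add]
    have h3 : rn (fun p => if p < (5 * m) ^ k then lt m k Unit W () p else Lt.pad) 0
        ((5 * m) ^ k) (true, false, []) = (p', v', []) := by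
      rw [← e1]
      refine rn_congr _ _ _ _ _ ?_ _
      intro q hq
      show (if 0 + q < (5 * m) ^ k then lt m k Unit W () (0 + q) else Lt.pad) = _
      rw [if_pos (by omega)]
    rw [h3]
    refine rn_pad _ _ _ ?_ _
    intro q _
    show (if 0 + (5 * m) ^ k + q < (5 * m) ^ k then _ else Lt.pad) = _
    rw [if_neg (by omega)]
  have h3 : (wd m k n W ∈ Lang) ↔ v' = true := by
    show (ev (wd m k n W) (true, false, [])).2.1 = true ↔ _
    rw [h1, h2]
  rw [h3]
  rw [if_pos rfl] at e2
  have e3 : sb false = 1 := if_neg (by simp)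
  rw [e3, one_mul] at e2
  rw [← e2]
  cases v'
  · norm_num [sb]
  · norm_num [sb]

lemma wd_inj (m k n : ℕ) (hm : 0 < m) (hn : (5 * m) ^ k ≤ n) :
    Function.Injective (wd m k n) := by
  intro W W' h
  refine lt_inj m hm k Unit W W' ?_
  intro b p hp
  have h1 := getElem?_wd m k n W p (by omega)
  have h2 := getElem?_wd m k n W' p (by omega)
  rw [h] at h1
  rw [h1, if_pos hp, if_pos hp] at h2
  exact Option.some.inj h2

end Pool.Agent.Det
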