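import Pool.Agent.Lib_helper16.Det.Count
import Pool.Agent.Lib_helper16.Det.EvPDA
import Pool.Agent.Lib_helper16.Heads.LTS

/-!
The lower bounds for deterministic finite automata.
-/

set_option autoImplicit false

namespace Pool.Agent.Det

open Pool.Agent.Heads Filter Asymptotics

attribute [local instance] Classical.propDecidable

/-- `M` accepts `w` in at most `t` steps. -/
def AcceptsIn {α : Type} {k : ℕ} (M : FA α k) (w : List α) (t : ℕ) : Prop :=
  ∃ i ≤ t, ∃ c, ReachN (M.Step w) (M.start, fun _ => 0) i c ∧ c.1 ∈ M.accept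

lemma AcceptsIn.mono {α : Type} {k : ℕ} {M : FA α k} {w : List α} {t t' : ℕ} (h : t ≤ t')
    (hA : AcceptsIn M w t) : AcceptsIn M w t' := by
  obtain ⟨i, hi, c, h1, h2⟩ := hA
  exact ⟨i, hi.trans h, c, h1, h2⟩

lemma ReachN.refl_trans {A : Type} {step : A → A → Prop} {a b : A} {t : ℕ}
    (h : ReachN step a t b) : Relation.ReflTransGen step a b := by
  induction h with
  | zero => exact Relation.ReflTransGen.refl
  | succ _ hs ih => exact ih.tail hs

lemma AcceptsIn.mem {α : Type} {k : ℕ} {M : FA α k} {w : List α} {t : ℕ}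
    (hA : AcceptsIn M w t) : w ∈ M.lang := by
  obtain ⟨i, -, c, h1, h2⟩ := hA
  exact ⟨c, ReachN.refl_trans h1, h2⟩

variable {k : ℕ}

/-- The machine given by a deterministic automaton. -/
noncomputable def ofFA (M : FA Lt k) : LM k M.Q where
  nx := fun _ q x => if h : (M.δ q x).Nonempty then some h.some else none
  q0 := M.start
  acc := fun q => q ∈ M.accept

lemma ofFA_nx {M : FA Lt k} (hM : M.Det) (i : ℕ) (q : M.Q) (x : Fin k → Sym Lt)
    (r : M.Q × (Fin k → Dir)) : (ofFA M).nx i q x = some r ↔ r ∈ M.δ q x := by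
  unfold ofFA
  simp only
  constructor
  · intro h
    split_ifs at h with h1
    rw [← Option.some.inj h]
    exact h1.some_mem
  · intro h
    have h1 : (M.δ q x).Nonempty := ⟨r, h⟩
    rw [dif_pos h1]
    exact congrArg some (hM q x h1.some_mem h)

lemma ofFA_cf {M : FA Lt k} (hM : M.Det) (w : List Lt) (i : ℕ) : ∀ c,
    (ofFA M).cf w i = some c ↔ ReachN (M.Step w) (M.start, fun _ => 0) i c := by
  induction i with
  | zero =>
    intro c
    constructor
    · intro h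
      have h1 : ((M.start, fun _ => 0) : M.Q × (Fin k → ℕ)) = c := Option.some.inj h
      rw [← h1]
      exact ReachN.zero
    · intro h
      cases h
      rfl
  | succ i ih =>
    intro c
    constructor
    · intro h
      unfold LM.cf at h
      rw [Option.bind_eq_some_iff] at h
      obtain ⟨c', hc', h⟩ := h
      rw [Option.map_eq_some_iff] at h
      obtain ⟨qd, hqd, h⟩ := h
      exact ReachN.succ ((ih c').1 hc') ⟨qd, (ofFA_nx hM _ _ _ _).1 hqd, h.symm⟩
    · intro h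
      cases h with
      | @succ _ c' _ h1 h2 =>
        obtain ⟨qd, hqd, h3⟩ := h2
        unfold LM.cf
        rw [Option.bind_eq_some_iff]
        refine ⟨c', (ih c').2 h1, ?_⟩
        rw [Option.map_eq_some_iff]
        exact ⟨qd, (ofFA_nx hM _ _ _ _).2 hqd, h3.symm⟩

lemma ofFA_accIn {M : FA Lt k} (hM : M.Det) (w : List Lt) (t : ℕ) :
    (ofFA M).AccIn w t ↔ AcceptsIn M w t := by
  constructor
  · rintro ⟨i, hi, c, h1, h2⟩
    exact ⟨i, hi, c, (ofFA_cf hM w i c).1 h1, h2⟩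
  · rintro ⟨i, hi, c, h1, h2⟩
    exact ⟨i, hi, c, (ofFA_cf hM w i c).2 h1, h2⟩

/-- The lower bound, on average. -/
theorem average (k : ℕ) (hk : 1 ≤ k) : ∃ c : ℝ, 0 < c ∧ ∀ᶠ n : ℕ in atTop,
    ∃ H : Finset (List Lt), H.Nonempty ∧ (∀ w ∈ H, w.length = n) ∧
      ∀ (M : FA Lt k) (s t : ℕ), M.Det → Nat.card M.Q ≤ 2 ^ s →
        ((n : ℝ) + t) * (s + Real.log n) ≤ c * (n : ℝ) ^ (1 + 1 / (k : ℝ)) →
        ({w | w ∈ H ∧ (w ∈ Lang ↔ AcceptsIn M w t)}.ncard : ℝ) ≤
          (1 / 2 + Real.exp (-(c * (n : ℝ) ^ (1 / (k : ℝ))))) * H.card := by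
  obtain ⟨c, hc, -, h⟩ := params k hk
  refine ⟨c, hc, ?_⟩
  filter_upwards [h] with n hn
  obtain ⟨m', hm, hmn, hexp, hpar⟩ := hn
  have hmn' : (5 * (64 * m')) ^ k ≤ n := by
    rw [show 5 * (64 * m') = 320 * m' by ring]; exact hmn
  have hinj := wd_inj (64 * m') k n (by omega) hmn'
  refine ⟨Finset.univ.image (wd (64 * m') k n), ?_, ?_, ?_⟩
  · refine Finset.Nonempty.image ?_ _
    have hne : ∀ r : ℕ, ∀ B : Type, Nonempty (Wt (64 * m') r B) := by
      intro r
      induction r with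
      | zero => intro B; exact ⟨(fun _ => false : B → Bool)⟩
      | succ r ih =>
        intro B
        obtain ⟨w⟩ := ih (B × Fin (64 * m'))
        exact ⟨Wt.mk (fun _ => false) w⟩
    have := hne k Unit
    exact Finset.univ_nonempty
  · intro w hw
    rw [Finset.mem_image] at hw
    obtain ⟨W, -, rfl⟩ := hw
    exact length_wd _ _ _ _
  · intro M s t hM hQ hst
    have := M.finQ
    have hfin : Fintype M.Q := Fintype.ofFinite M.Q
    obtain ⟨L, hL1, hL2⟩ := hpar s t hst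
    have hcard : Fintype.card M.Q ≤ 2 ^ s := by
      rw [← Nat.card_eq_fintype_card]; exact hQ
    have hb := agree_bound (k := k) (m := 64 * m') (m' := m') (n := n) (t := t) (L := L) rfl
      (by omega) hmn' (ofFA M) (by rw [card_Ec]; exact hL1 _ hcard) hL2
    have e1 : {w | w ∈ Finset.univ.image (wd (64 * m') k n) ∧ (w ∈ Lang ↔ AcceptsIn M w t)} =
        ((Finset.univ.filter fun W : Wt (64 * m') k Unit => (wd (64 * m') k n W ∈ Lang ↔
          (ofFA M).AccIn (wd (64 * m') k n W) t)).image (wd (64 * m') k n) :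
            Set (List Lt)) := by
      ext w
      simp only [Finset.mem_image, Finset.mem_univ, true_and, Set.mem_ofPred_eq,
        Finset.coe_image, Finset.coe_filter, Set.mem_image]
      constructor
      · rintro ⟨⟨W, rfl⟩, h1⟩
        exact ⟨W, by rw [ofFA_accIn hM]; exact h1, rfl⟩
      · rintro ⟨W, h1, rfl⟩
        exact ⟨⟨W, rfl⟩, by rw [ofFA_accIn hM] at h1; exact h1⟩
    rw [e1, Set.ncard_coe_finset, Finset.card_image_of_injective _ hinj,
      Finset.card_image_of_injective _ hinj, Finset.card_univ]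
    refine hb.trans ?_
    refine mul_le_mul_of_nonneg_right ?_ (Nat.cast_nonneg _)
    linarith

lemma log_div_rpow (s : ℝ) {y : ℝ} (hy : 0 < y) {d : ℝ} (hd : 0 < d) :
    ∀ᶠ n : ℕ in atTop, s + Real.log n ≤ d * (n : ℝ) ^ y := by
  have h1 := (isLittleO_log_rpow_atTop hy).comp_tendsto tendsto_natCast_atTop_atTop
  have h2 := h1.def (show (0 : ℝ) < d / 2 by positivity)
  have h3 : Tendsto (fun n : ℕ => (n : ℝ) ^ y) atTop atTop :=
    (tendsto_rpow_atTop hy).comp tendsto_natCast_atTop_atTop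
  filter_upwards [h2, h3.eventually_ge_atTop (2 * s / d)] with n h4 h5
  simp only [Function.comp_apply, Real.norm_eq_abs] at h4
  have h6 : (0 : ℝ) ≤ (n : ℝ) ^ y := by positivity
  rw [abs_of_nonneg h6] at h4
  have h7 := (le_abs_self _).trans h4
  rw [div_le_iff₀ hd] at h5
  nlinarith

/-- The lower bound for automata accepting the language. -/
theorem worst (k : ℕ) (hk : 1 ≤ k) (M : FA Lt k) (hM : M.Det) (hL : M.lang = Lang) :
    ∃ c : ℝ, 0 < c ∧ ∀ᶠ n : ℕ in atTop, ∃ w ∈ Lang, w.length = n ∧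
      ∀ t, AcceptsIn M w t → c * (n : ℝ) ^ (1 + 1 / (k : ℝ)) / Real.log n ≤ t := by
  obtain ⟨c, hc, h⟩ := average k hk
  have := M.finQ
  obtain ⟨s, hs⟩ : ∃ s, Nat.card M.Q ≤ 2 ^ s := ⟨Nat.card M.Q, Nat.lt_two_pow_self.le⟩
  have hk0 : (0 : ℝ) < k := by exact_mod_cast hk
  refine ⟨c / 4, by positivity, ?_⟩
  have hlog : Tendsto (fun n : ℕ => Real.log n) atTop atTop :=
    Real.tendsto_log_atTop.comp tendsto_natCast_atTop_atTop
  have hy : Tendsto (fun n : ℕ => (n : ℝ) ^ (1 / (k : ℝ))) atTop atTop :=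
    (tendsto_rpow_atTop (by positivity)).comp tendsto_natCast_atTop_atTop
  filter_upwards [h, log_div_rpow s (y := 1 / (k : ℝ)) (by positivity) (half_pos hc),
    hlog.eventually_ge_atTop (max s 1), hy.eventually_ge_atTop (2 / c),
    eventually_gt_atTop 0] with n hn h1 h2 h3 h4
  obtain ⟨H, hne, hlen, hH⟩ := hn
  have h2s : (s : ℝ) ≤ Real.log n := (le_max_left _ _).trans h2
  have h21 : (1 : ℝ) ≤ Real.log n := (le_max_right _ _).trans h2
  have hn0 : (0 : ℝ) < n := by exact_mod_cast h4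
  by_contra hcon
  push Not at hcon
  set t := ⌊c / 4 * (n : ℝ) ^ (1 + 1 / (k : ℝ)) / Real.log n⌋₊ with ht
  have ht1 : (t : ℝ) ≤ c / 4 * (n : ℝ) ^ (1 + 1 / (k : ℝ)) / Real.log n :=
    Nat.floor_le (by positivity)
  have hall : ∀ w ∈ H, (w ∈ Lang ↔ AcceptsIn M w t) := by
    intro w hw
    constructor
    · intro hwL
      obtain ⟨t', ht', hlt⟩ := hcon w hwL (hlen w hw)
      refine AcceptsIn.mono ?_ ht'
      exact Nat.le_floor hlt.le
    · intro hA
      rw [← hL]
      exact hA.mem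
  have hs0 : (0 : ℝ) ≤ s := Nat.cast_nonneg _
  have hbud : ((n : ℝ) + t) * (s + Real.log n) ≤ c * (n : ℝ) ^ (1 + 1 / (k : ℝ)) := by
    have e1 : (n : ℝ) * (s + Real.log n) ≤ c / 2 * (n : ℝ) ^ (1 + 1 / (k : ℝ)) := by
      rw [Real.rpow_add hn0, Real.rpow_one]
      calc (n : ℝ) * (s + Real.log n) ≤ n * (c / 2 * (n : ℝ) ^ (1 / (k : ℝ))) :=
            mul_le_mul_of_nonneg_left h1 hn0.le
        _ = _ := by ring
    have e2 : (t : ℝ) * (s + Real.log n) ≤ c / 2 * (n : ℝ) ^ (1 + 1 / (k : ℝ)) := by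
      calc (t : ℝ) * (s + Real.log n) ≤ t * (2 * Real.log n) :=
            mul_le_mul_of_nonneg_left (by linarith) (Nat.cast_nonneg _)
        _ ≤ (c / 4 * (n : ℝ) ^ (1 + 1 / (k : ℝ)) / Real.log n) * (2 * Real.log n) :=
            mul_le_mul_of_nonneg_right ht1 (by linarith)
        _ = _ := by
            field_simp
            ring
    calc ((n : ℝ) + t) * (s + Real.log n) = n * (s + Real.log n) + t * (s + Real.log n) := by
          ring
      _ ≤ _ := by linarith
  have hfin := hH M s t hM hs hbud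
  have e3 : {w | w ∈ H ∧ (w ∈ Lang ↔ AcceptsIn M w t)} = (H : Set (List Lt)) := by
    ext w
    simp only [Set.mem_ofPred_eq, Finset.mem_coe]
    exact ⟨fun h => h.1, fun h => ⟨h, hall w h⟩⟩
  rw [e3, Set.ncard_coe_finset] at hfin
  have hHpos : (0 : ℝ) < H.card := by exact_mod_cast Finset.card_pos.2 hne
  have hexp : Real.exp (-(c * (n : ℝ) ^ (1 / (k : ℝ)))) < 1 / 2 := by
    have h5 : 2 ≤ c * (n : ℝ) ^ (1 / (k : ℝ)) := by
      rw [div_le_iff₀ hc] at h3
      linarith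
    have h6 : Real.exp (-(c * (n : ℝ) ^ (1 / (k : ℝ)))) ≤ Real.exp (-1) :=
      Real.exp_le_exp.2 (by linarith)
    have h7 : Real.exp (-1) < 1 / 2 := by
      rw [Real.exp_neg, one_div]
      refine inv_strictAnti₀ (by norm_num) ?_
      have := Real.exp_one_gt_d9
      linarith
    linarith
  nlinarith

/-- `L` is accepted by a two-way deterministic multihead finite automaton in time `f`: every
word `w` in `L` is accepted in at most `f |w|` steps. -/
def DFATime (f : ℕ → ℝ) {α : Type} (L : Set (List α)) : Prop :=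
  ∃ k, 1 ≤ k ∧ ∃ M : FA α k, M.Det ∧ M.lang = L ∧
    ∀ w ∈ L, ∃ t : ℕ, (t : ℝ) ≤ f w.length ∧ AcceptsIn M w t

theorem not_time (f : ℕ → ℝ)
    (hf : ∀ ε : ℝ, 0 < ε → f =O[atTop] fun n : ℕ => (n : ℝ) ^ (1 + ε)) : ¬ DFATime f Lang := by
  rintro ⟨k, hk, M, hM, hL, ht⟩
  have hk0 : (0 : ℝ) < k := by exact_mod_cast hk
  obtain ⟨c, hc, h⟩ := worst k hk M hM hL
  obtain ⟨K, hK, hfK⟩ := (hf (1 / (2 * k)) (by positivity)).exists_pos
  rw [IsBigOWith] at hfK
  have hlog := log_div_rpow 0 (y := 1 / (2 * (k : ℝ))) (by positivity)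
    (show (0 : ℝ) < c / (2 * K) by positivity)
  have hlog1 : Tendsto (fun n : ℕ => Real.log n) atTop atTop :=
    Real.tendsto_log_atTop.comp tendsto_natCast_atTop_atTop
  obtain ⟨n, hn, hfn, hl, hl1, hn0⟩ := (h.and (hfK.and (hlog.and
    ((hlog1.eventually_ge_atTop 1).and (eventually_gt_atTop 0))))).exists
  obtain ⟨w, hw, hwn, hwt⟩ := hn
  obtain ⟨t, ht1, ht2⟩ := ht w hw
  have h1 := hwt t ht2
  rw [hwn] at ht1
  have hn0' : (0 : ℝ) < n := by exact_mod_cast hn0
  have h2 : f n ≤ K * (n : ℝ) ^ (1 + 1 / (2 * (k : ℝ))) := by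
    have := (le_abs_self _).trans hfn
    rwa [Real.norm_eq_abs, abs_of_nonneg (by positivity)] at this
  have h3 : c * (n : ℝ) ^ (1 + 1 / (k : ℝ)) / Real.log n ≤
      K * (n : ℝ) ^ (1 + 1 / (2 * (k : ℝ))) := h1.trans (ht1.trans h2)
  have hlpos : 0 < Real.log n := by linarith
  rw [div_le_iff₀ hlpos] at h3
  have e1 : (n : ℝ) ^ (1 + 1 / (k : ℝ)) =
      (n : ℝ) ^ (1 + 1 / (2 * (k : ℝ))) * (n : ℝ) ^ (1 / (2 * (k : ℝ))) := by
    rw [← Real.rpow_add hn0']
    congr 1
    field_simp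
    ring
  rw [e1] at h3
  have hA : (0 : ℝ) < (n : ℝ) ^ (1 + 1 / (2 * (k : ℝ))) := by positivity
  have hB : (0 : ℝ) < (n : ℝ) ^ (1 / (2 * (k : ℝ))) := by positivity
  have h4 : c * (n : ℝ) ^ (1 / (2 * (k : ℝ))) ≤ K * Real.log n := by
    refine le_of_mul_le_mul_left ?_ hA
    nlinarith
  have h5 : K * Real.log n ≤ c / 2 * (n : ℝ) ^ (1 / (2 * (k : ℝ))) := by
    rw [zero_add] at hl
    calc K * Real.log n ≤ K * (c / (2 * K) * (n : ℝ) ^ (1 / (2 * (k : ℝ)))) :=
          mul_le_mul_of_nonneg_left hl hK.le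
      _ = _ := by field_simp
  have h6 : 0 < c * (n : ℝ) ^ (1 / (2 * (k : ℝ))) := by positivity
  linarith

end Pool.Agent.Det
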