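import Pool.Agent.Lib_helper16.Det.Disc
import Pool.Agent.Lib_helper16.Heads.Defs

/-!
The words: layout, zones and groups.
-/

set_option autoImplicit false

namespace Pool.Agent.Det

open Pool.Agent.Heads

/-- The letters. -/
inductive Lt where
  | push : Bool → Lt
  | pop : Lt
  | leaf : Bool → Lt
  | pad : Lt
  deriving DecidableEq

lemma idx1 {m s : ℕ} (h : s < m) : m - 1 - s < m := by omega

lemma idx2 {m s : ℕ} (h : ¬ s < 2 * m) (h' : s < 4 * m) : (s - 2 * m) / 2 < m := by omega

/-- The letter at the place `p` of the part belonging to the base `b`. -/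
def lt (m : ℕ) : (r : ℕ) → (B : Type) → Wt m r B → B → ℕ → Lt
  | 0, _, y, b, _ => Lt.leaf (y b)
  | r + 1, B, w, b, p =>
    if h : p / (5 * m) ^ r < m then
      if p % (5 * m) ^ r = 0 then
        Lt.push (w.1 (b, ⟨m - 1 - p / (5 * m) ^ r, idx1 h⟩)) else Lt.pad
    else if h1 : p / (5 * m) ^ r < 2 * m then Lt.pad
    else if h' : p / (5 * m) ^ r < 4 * m then
      if p / (5 * m) ^ r % 2 = 0 then (if p % (5 * m) ^ r = 0 then Lt.pop else Lt.pad)
      else lt m r (B × Fin m) w.2 (b, ⟨(p / (5 * m) ^ r - 2 * m) / 2, idx2 h1 h'⟩)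
        (p % (5 * m) ^ r)
    else Lt.pad

/-- The slot `s` contains the part of a child. -/
def inner (m s : ℕ) : Prop := 2 * m ≤ s ∧ s < 4 * m ∧ s % 2 ≠ 0

instance (m s : ℕ) : Decidable (inner m s) := by unfold inner; infer_instance

/-- The zone of a place: the number of proper parts containing it. -/
def zo (m : ℕ) : ℕ → ℕ → ℕ
  | 0, _ => 0
  | r + 1, p => if inner m (p / (5 * m) ^ r) then zo m r (p % (5 * m) ^ r) + 1 else 0

/-- The group of a place. -/
def gp (m : ℕ) : ℕ → ℕ → Option ℕ
  | 0, _ => some 0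
  | r + 1, p =>
    if p / (5 * m) ^ r < m then (if p % (5 * m) ^ r = 0 then some 0 else none)
    else if inner m (p / (5 * m) ^ r) then (gp m r (p % (5 * m) ^ r)).map (· + 1) else none

lemma zo_of_gp (m r : ℕ) : ∀ p i, gp m r p = some i → zo m r p = i := by
  induction r with
  | zero =>
    intro p i h
    have : (0 : ℕ) = i := Option.some.inj h
    exact this
  | succ r ih =>
    intro p i h
    unfold gp at h
    unfold zo
    split_ifs at h with h1 h2 h3
    · have : (0 : ℕ) = i := Option.some.inj h
      rw [if_neg (by unfold inner; omega)]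
      exact this
    · rw [if_pos h3]
      rw [Option.map_eq_some_iff] at h
      obtain ⟨j, hj, hj'⟩ := h
      rw [ih _ _ hj]
      exact hj'

lemma zo_le (m r : ℕ) : ∀ p, zo m r p ≤ r := by
  induction r with
  | zero => intro p; exact le_rfl
  | succ r ih =>
    intro p
    unfold zo
    split_ifs
    · exact Nat.succ_le_succ (ih _)
    · exact Nat.zero_le _

/-- The letters outside group `j` do not depend on group `j`. -/
lemma lt_congr (m r : ℕ) : ∀ (B : Type) (w w' : Wt m r B) (b : B) (p j : ℕ),
    gp m r p ≠ some j → Agree m r B j w w' → lt m r B w b p = lt m r B w' b p := by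
  induction r with
  | zero =>
    intro B w w' b p j h1 h2
    rcases h2 with h2 | h2
    · subst h2; exact absurd rfl h1
    · rw [h2]
  | succ r ih =>
    intro B w w' b p j h1 h2
    unfold lt
    unfold gp at h1
    cases j with
    | zero =>
      have h2' : w.2 = w'.2 := h2
      rw [h2']
      split_ifs at h1 ⊢ <;> first | rfl | exact absurd rfl h1
    | succ j =>
      obtain ⟨h2', h3⟩ : w.1 = w'.1 ∧ Agree m r (B × Fin m) j w.2 w'.2 := h2
      rw [h2']
      by_cases hA : p / (5 * m) ^ r < m
      · rw [dif_pos hA, dif_pos hA]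
      · rw [dif_neg hA, dif_neg hA]
        by_cases hB : p / (5 * m) ^ r < 2 * m
        · rw [dif_pos hB, dif_pos hB]
        · rw [dif_neg hB, dif_neg hB]
          by_cases hC : p / (5 * m) ^ r < 4 * m
          · rw [dif_pos hC, dif_pos hC]
            by_cases hD : p / (5 * m) ^ r % 2 = 0
            · rw [if_pos hD, if_pos hD]
            · rw [if_neg hD, if_neg hD]
              refine ih _ _ _ _ _ j ?_ h3
              rw [if_neg hA, if_pos ⟨by omega, hC, hD⟩] at h1
              intro h4
              rw [h4] at h1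
              exact h1 rfl
          · rw [dif_neg hC, dif_neg hC]

/-- Places in the zone are far from the ends of the part. -/
lemma zo_pos {m r p : ℕ} (hm : 0 < m) (h : 1 ≤ zo m (r + 1) p) :
    2 * m * (5 * m) ^ r ≤ p ∧ p < 4 * m * (5 * m) ^ r := by
  unfold zo at h
  split_ifs at h with h1
  · obtain ⟨h2, h3, -⟩ := h1
    have hpos : 0 < (5 * m) ^ r := by positivity
    constructor
    · exact (Nat.le_div_iff_mul_le hpos).1 h2
    · exact (Nat.div_lt_iff_lt_mul hpos).1 h3
  · omega

lemma pow_le_of {m i r : ℕ} (hm : 0 < m) (h : i ≤ r) : (5 * m) ^ i ≤ (5 * m) ^ r :=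
  Nat.pow_le_pow_right (by omega) h

/-- The gaps. -/
lemma gap_inner (m : ℕ) (hm : 0 < m) (r : ℕ) : ∀ (i p p' : ℕ), i < r → p < (5 * m) ^ r →
    p' < (5 * m) ^ r → i + 1 ≤ zo m r p → (gp m r p' = some i ∨ zo m r p' < i) →
    p + m * (5 * m) ^ (r - 1 - i) ≤ p' ∨ p' + m * (5 * m) ^ (r - 1 - i) ≤ p := by
  induction r with
  | zero => intro i p p' h; omega
  | succ r ih =>
    intro i p p' hi hp hp' hz h
    set l := (5 * m) ^ r with hl
    have hlpos : 0 < l := by positivity
    have e1 := Nat.div_add_mod p l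
    have e2 := Nat.div_add_mod p' l
    have e3 := Nat.mod_lt p hlpos
    have e4 := Nat.mod_lt p' hlpos
    cases i with
    | zero =>
      obtain ⟨h1, h2⟩ := zo_pos hm hz
      right
      rcases h with h | h
      · unfold gp at h
        split_ifs at h with h3 h4 h5
        · rw [← hl] at h3 h1
          have h6 : p' < m * l := (Nat.div_lt_iff_lt_mul hlpos).1 h3
          have e5 : r + 1 - 1 - 0 = r := by omega
          rw [e5, ← hl]
          have e6 : 2 * m * l = m * l + m * l := by ring
          omega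
        · rw [Option.map_eq_some_iff] at h
          obtain ⟨j, -, hj⟩ := h
          exact absurd hj (by simp)
      · omega
    | succ i =>
      have hz' : i + 1 ≤ zo m r (p % l) ∧ inner m (p / l) := by
        unfold zo at hz
        rw [← hl] at hz
        split_ifs at hz with h3
        · exact ⟨by omega, h3⟩
        · omega
      obtain ⟨hz1, hin⟩ := hz'
      have hr : 0 < r := by
        rcases Nat.eq_zero_or_pos r with h0 | h0
        · subst h0
          exact absurd hz1 (by simp [zo])
        · exact h0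
      obtain ⟨r', rfl⟩ : ∃ r', r = r' + 1 := ⟨r - 1, by omega⟩
      obtain ⟨h1, h2⟩ := zo_pos hm (show 1 ≤ zo m (r' + 1) (p % l) by omega)
      have e5 : r' + 1 + 1 - 1 - (i + 1) = r' + 1 - 1 - i := by omega
      rw [e5]
      have hgle : m * (5 * m) ^ (r' + 1 - 1 - i) ≤ m * (5 * m) ^ r' :=
        Nat.mul_le_mul_left _ (pow_le_of hm (by omega))
      have e6 : 2 * m * (5 * m) ^ r' = m * (5 * m) ^ r' + m * (5 * m) ^ r' := by ring
      have e7 : l = 4 * m * (5 * m) ^ r' + m * (5 * m) ^ r' := by rw [hl]; ring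
      rcases lt_trichotomy (p' / l) (p / l) with hlt | heq | hgt
      · right
        have h3 : p' < p / l * l := by
          have := (Nat.div_lt_iff_lt_mul hlpos).1 hlt
          exact this
        have e8 : l * (p / l) = p / l * l := by ring
        omega
      · have h4 : gp m (r' + 1) (p' % l) = some i ∨ zo m (r' + 1) (p' % l) < i := by
          rcases h with h | h
          · left
            unfold gp at h
            rw [← hl] at h
            rw [heq] at h
            rw [if_neg (by unfold inner at hin; omega), if_pos hin] at h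
            rw [Option.map_eq_some_iff] at h
            obtain ⟨j, hj, hj'⟩ := h
            rw [hj]
            congr 1
            omega
          · right
            unfold zo at h
            rw [← hl] at h
            rw [heq, if_pos hin] at h
            omega
        have h5 := ih i (p % l) (p' % l) (by omega) e3 e4 hz1 h4
        rw [heq] at e2
        omega
      · left
        have h3 : (p / l + 1) * l ≤ p' := by
          calc (p / l + 1) * l ≤ p' / l * l := Nat.mul_le_mul_right _ hgt
            _ ≤ p' := Nat.div_mul_le_self p' l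
        have e8 : (p / l + 1) * l = l * (p / l) + l := by ring
        omega

/-! ### The letters in the slots -/

section slots

variable {m : ℕ} (r : ℕ) (B : Type) (w : Wt m (r + 1) B) (b : B)

lemma slot_div {m r s p : ℕ} (hp : p < (5 * m) ^ r) :
    (s * (5 * m) ^ r + p) / (5 * m) ^ r = s := by
  rw [Nat.add_comm, Nat.add_mul_div_right _ _ (by omega), Nat.div_eq_of_lt hp, Nat.zero_add]

lemma slot_mod {m r s p : ℕ} (hp : p < (5 * m) ^ r) :
    (s * (5 * m) ^ r + p) % (5 * m) ^ r = p := by
  rw [Nat.add_comm, Nat.add_mul_mod_self_right, Nat.mod_eq_of_lt hp]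

lemma lt_push (s p : ℕ) (hs : s < m) (hp : p < (5 * m) ^ r) :
    lt m (r + 1) B w b (s * (5 * m) ^ r + p) =
      if p = 0 then Lt.push (w.1 (b, ⟨m - 1 - s, idx1 hs⟩)) else Lt.pad := by
  have e1 := slot_div (m := m) (s := s) hp
  have e2 := slot_mod (m := m) (s := s) hp
  unfold lt
  rw [dif_pos (by rw [e1]; exact hs)]
  simp only [e1, e2]

lemma lt_pad1 (s p : ℕ) (hs : m ≤ s) (hs' : s < 2 * m) (hp : p < (5 * m) ^ r) :
    lt m (r + 1) B w b (s * (5 * m) ^ r + p) = Lt.pad := by
  have e1 := slot_div (m := m) (s := s) hp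
  unfold lt
  rw [dif_neg (by rw [e1]; omega), dif_pos (by rw [e1]; exact hs')]

lemma lt_pad2 (s p : ℕ) (hs : 4 * m ≤ s) (hp : p < (5 * m) ^ r) :
    lt m (r + 1) B w b (s * (5 * m) ^ r + p) = Lt.pad := by
  have e1 := slot_div (m := m) (s := s) hp
  unfold lt
  rw [dif_neg (by rw [e1]; omega), dif_neg (by rw [e1]; omega), dif_neg (by rw [e1]; omega)]

lemma lt_pop (c : ℕ) (p : ℕ) (hc : c < m) (hp : p < (5 * m) ^ r) :
    lt m (r + 1) B w b ((2 * m + 2 * c) * (5 * m) ^ r + p) =
      if p = 0 then Lt.pop else Lt.pad := by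
  have e1 := slot_div (m := m) (s := 2 * m + 2 * c) hp
  have e2 := slot_mod (m := m) (s := 2 * m + 2 * c) hp
  unfold lt
  rw [dif_neg (by rw [e1]; omega), dif_neg (by rw [e1]; omega), dif_pos (by rw [e1]; omega),
    if_pos (by rw [e1]; omega), e2]

lemma lt_inner (c : Fin m) (p : ℕ) (hp : p < (5 * m) ^ r) :
    lt m (r + 1) B w b ((2 * m + 2 * c + 1) * (5 * m) ^ r + p) =
      lt m r (B × Fin m) w.2 (b, c) p := by
  have hc := c.2
  have e1 := slot_div (m := m) (s := 2 * m + 2 * (c : ℕ) + 1) hp
  have e2 := slot_mod (m := m) (s := 2 * m + 2 * (c : ℕ) + 1) hp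
  have e3 : ∀ h, (⟨(((2 * m + 2 * (c : ℕ) + 1) * (5 * m) ^ r + p) / (5 * m) ^ r - 2 * m) / 2,
      h⟩ : Fin m) = c := by
    intro h
    apply Fin.ext
    show (((2 * m + 2 * (c : ℕ) + 1) * (5 * m) ^ r + p) / (5 * m) ^ r - 2 * m) / 2 = c
    rw [e1]
    omega
  have e4 : lt m (r + 1) B w b ((2 * m + 2 * c + 1) * (5 * m) ^ r + p) =
      lt m r (B × Fin m) w.2 (b, ⟨(((2 * m + 2 * (c : ℕ) + 1) * (5 * m) ^ r + p) /
        (5 * m) ^ r - 2 * m) / 2, by rw [e1]; omega⟩)
        (((2 * m + 2 * (c : ℕ) + 1) * (5 * m) ^ r + p) % (5 * m) ^ r) := by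
    conv_lhs => unfold lt
    rw [dif_neg (by rw [e1]; omega), dif_neg (by rw [e1]; omega), dif_pos (by rw [e1]; omega),
      if_neg (by rw [e1]; omega)]
  rw [e4, e3, e2]

end slots

/-- The letters determine the bits. -/
lemma lt_inj (m : ℕ) (hm : 0 < m) (r : ℕ) : ∀ (B : Type) (w w' : Wt m r B),
    (∀ b, ∀ p < (5 * m) ^ r, lt m r B w b p = lt m r B w' b p) → w = w' := by
  induction r with
  | zero =>
    intro B w w' h
    funext b
    have := h b 0 (by simp)
    exact Lt.leaf.inj this
  | succ r ih =>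
    intro B w w' h
    have hlpos : 0 < (5 * m) ^ r := by positivity
    have hlen : (5 * m) ^ (r + 1) = 5 * m * (5 * m) ^ r := by ring
    have h1 : w.1 = w'.1 := by
      funext q
      obtain ⟨b, c⟩ := q
      have hc := c.2
      have h2 := h b ((m - 1 - c) * (5 * m) ^ r + 0) (by
        rw [hlen, Nat.add_zero]
        exact Nat.mul_lt_mul_of_pos_right (by omega) hlpos)
      rw [lt_push r B w b _ 0 (by omega) hlpos, lt_push r B w' b _ 0 (by omega) hlpos,
        if_pos rfl, if_pos rfl] at h2
      have h3 := Lt.push.inj h2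
      have e3 : ∀ h, (⟨m - 1 - (m - 1 - c), h⟩ : Fin m) = c := by
        intro h
        apply Fin.ext
        show m - 1 - (m - 1 - c) = c
        omega
      rw [e3] at h3
      exact h3
    have h2 : w.2 = w'.2 := by
      refine ih _ _ _ ?_
      rintro ⟨b, c⟩ p hp
      have hc := c.2
      have hplace : (2 * m + 2 * c + 1) * (5 * m) ^ r + p < (5 * m) ^ (r + 1) := by
        rw [hlen]
        calc (2 * m + 2 * c + 1) * (5 * m) ^ r + p <
              (2 * m + 2 * c + 1) * (5 * m) ^ r + (5 * m) ^ r := by omega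
          _ = (2 * m + 2 * c + 2) * (5 * m) ^ r := by ring
          _ ≤ 5 * m * (5 * m) ^ r := Nat.mul_le_mul_right _ (by omega)
      have h3 := h b ((2 * m + 2 * c + 1) * (5 * m) ^ r + p) hplace
      rw [lt_inner r B w b c p hp, lt_inner r B w' b c p hp] at h3
      exact h3
    exact Prod.ext h1 h2

end Pool.Agent.Det
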