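import Pool.Agent.Lib_helper16.Det.Sys

/-!
Two random assignments differ in many active places.
-/

set_option autoImplicit false

namespace Pool.Agent.Det

open Finset

attribute [local instance] Classical.propDecidable

/-- The active places where `x` and `x'` differ. -/
noncomputable def dif {B : Type} [Fintype B] {m : ℕ} (A : Finset B)
    (x x' : B × Fin m → Bool) : Finset (B × Fin m) :=
  Finset.univ.filter fun p => p.1 ∈ A ∧ x p ≠ x' p

lemma chi_act_mul {B : Type} [Fintype B] {m r : ℕ} (A : Finset B) (x x' : B × Fin m → Bool)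
    (w : Wt m r (B × Fin m)) :
    chi m r (B × Fin m) (act A x) w * chi m r (B × Fin m) (act A x') w =
      chi m r (B × Fin m) (dif A x x') w := by
  refine chi_mul m r (B × Fin m) _ _ _ ?_ w
  intro p
  unfold act dif
  simp only [Finset.mem_filter, Finset.mem_univ, true_and]
  by_cases hA : p.1 ∈ A <;> cases x p <;> cases x' p <;> simp [hA]

lemma sum_half_pow {B : Type} [Fintype B] {m : ℕ} (A : Finset B) (x : B × Fin m → Bool) :
    ∑ x' : B × Fin m → Bool, (1 / 2 : ℝ) ^ (dif A x x').card =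
      Fintype.card (B × Fin m → Bool) * (3 / 4 : ℝ) ^ (A.card * m) := by
  have e1 : ∀ x' : B × Fin m → Bool, (1 / 2 : ℝ) ^ (dif A x x').card =
      ∏ p : B × Fin m, (if p.1 ∈ A ∧ x p ≠ x' p then (1 / 2 : ℝ) else 1) := by
    intro x'
    rw [← Finset.prod_filter, Finset.prod_const]
    rfl
  have e2 : ∑ x' : B × Fin m → Bool, (1 / 2 : ℝ) ^ (dif A x x').card =
      ∏ p : B × Fin m, ∑ b : Bool, (if p.1 ∈ A ∧ x p ≠ b then (1 / 2 : ℝ) else 1) := by
    rw [Finset.prod_univ_sum, Fintype.piFinset_univ]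
    exact Finset.sum_congr rfl fun x' _ => e1 x'
  have e3 : ∀ p : B × Fin m, ∑ b : Bool, (if p.1 ∈ A ∧ x p ≠ b then (1 / 2 : ℝ) else 1) =
      2 * (if p.1 ∈ A then (3 / 4 : ℝ) else 1) := by
    intro p
    rw [Fintype.sum_bool]
    by_cases hA : p.1 ∈ A
    · cases x p <;> simp [hA] <;> norm_num
    · simp [hA]; norm_num
  rw [e2, Finset.prod_congr rfl fun p _ => e3 p, Finset.prod_mul_distrib, Finset.prod_const,
    ← Finset.prod_filter, Finset.prod_const, Finset.card_univ]
  have e4 : (Finset.univ.filter fun p : B × Fin m => p.1 ∈ A).card = A.card * m := by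
    have : (Finset.univ.filter fun p : B × Fin m => p.1 ∈ A) =
        A ×ˢ (Finset.univ : Finset (Fin m)) := by
      ext p
      simp
    rw [this, Finset.card_product, Finset.card_univ, Fintype.card_fin]
  rw [e4, Fintype.card_fun, Fintype.card_bool]
  push_cast
  ring

lemma light_bound {B : Type} [Fintype B] (m m' : ℕ) (hm : m = 64 * m') (A : Finset B) (a : ℕ)
    (ha : a ≤ A.card) (x : B × Fin m → Bool) :
    ((Finset.univ.filter fun x' : B × Fin m → Bool =>
      (dif A x x').card < 16 * m' * a).card : ℝ) ≤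
      (1 / 2) ^ (8 * (m' * a)) * Fintype.card (B × Fin m → Bool) := by
  subst hm
  set X := Fintype.card (B × Fin (64 * m') → Bool) with hX
  set F := Finset.univ.filter fun x' : B × Fin (64 * m') → Bool =>
      (dif A x x').card < 16 * m' * a with hF
  have h1 : (F.card : ℝ) * (1 / 2) ^ (16 * m' * A.card) ≤
      X * (3 / 4 : ℝ) ^ (A.card * (64 * m')) := by
    rw [← sum_half_pow A x]
    calc (F.card : ℝ) * (1 / 2) ^ (16 * m' * A.card) =
        ∑ x' ∈ F, (1 / 2 : ℝ) ^ (16 * m' * A.card) := by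
          rw [Finset.sum_const, nsmul_eq_mul]
      _ ≤ ∑ x' ∈ F, (1 / 2 : ℝ) ^ (dif A x x').card := by
          refine Finset.sum_le_sum ?_
          intro x' hx'
          rw [hF, Finset.mem_filter] at hx'
          refine pow_le_pow_of_le_one (by norm_num) (by norm_num) ?_
          exact hx'.2.le.trans (Nat.mul_le_mul_left _ ha)
      _ ≤ _ := Finset.sum_le_sum_of_subset_of_nonneg (Finset.subset_univ _)
          fun _ _ _ => by positivity
  have h2 : (3 / 4 : ℝ) ^ (A.card * (64 * m')) ≤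
      (1 / 2) ^ (8 * m' * A.card) * (1 / 2) ^ (16 * m' * A.card) := by
    have e1 : (3 / 4 : ℝ) ^ (A.card * (64 * m')) = ((3 / 4 : ℝ) ^ 64) ^ (m' * A.card) := by
      rw [← pow_mul]; congr 1; ring
    have e2 : (1 / 2 : ℝ) ^ (8 * m' * A.card) * (1 / 2) ^ (16 * m' * A.card) =
        ((1 / 2 : ℝ) ^ 24) ^ (m' * A.card) := by
      rw [← pow_add, ← pow_mul]; congr 1; ring
    rw [e1, e2]
    exact pow_le_pow_left₀ (by positivity) (by norm_num) _
  have h3 : (F.card : ℝ) ≤ X * (1 / 2) ^ (8 * m' * A.card) := by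
    have hpos : (0 : ℝ) < (1 / 2) ^ (16 * m' * A.card) := by positivity
    refine le_of_mul_le_mul_right ?_ hpos
    calc (F.card : ℝ) * (1 / 2) ^ (16 * m' * A.card) ≤
          X * (3 / 4 : ℝ) ^ (A.card * (64 * m')) := h1
      _ ≤ X * ((1 / 2) ^ (8 * m' * A.card) * (1 / 2) ^ (16 * m' * A.card)) :=
          mul_le_mul_of_nonneg_left h2 (Nat.cast_nonneg _)
      _ = _ := by ring
  calc (F.card : ℝ) ≤ X * (1 / 2) ^ (8 * m' * A.card) := h3
    _ ≤ X * (1 / 2) ^ (8 * m' * a) :=
        mul_le_mul_of_nonneg_left (pow_le_pow_of_le_one (by norm_num) (by norm_num)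
          (Nat.mul_le_mul_left _ ha)) (Nat.cast_nonneg _)
    _ = _ := by rw [mul_assoc 8 m' a]; ring

end Pool.Agent.Det
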