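import Pool.Agent.Lib_helper16.Det.Sys

/-!
Macro steps: the steps made until the type changes.
-/

set_option autoImplicit false

namespace Pool.Agent.Det

attribute [local instance] Classical.propDecidable

variable {E : Type}

/-- The first configuration of another type, within `F` steps. -/
def mac (σ : E → Option E) (lam : E → ℕ) : ℕ → E → Option E
  | 0, _ => none
  | F + 1, e => (σ e).bind fun e' => if lam e' = lam e then mac σ lam F e' else some e'

lemma mac_congr {σ σ' : E → Option E} {lam : E → ℕ} (F : ℕ) : ∀ e : E,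
    (∀ u, lam u = lam e → σ u = σ' u) → mac σ lam F e = mac σ' lam F e := by
  induction F with
  | zero => intro e _; rfl
  | succ F ih =>
    intro e h
    unfold mac
    rw [h e rfl]
    cases σ' e with
    | none => rfl
    | some e' =>
      simp only [Option.bind_some]
      split_ifs with h1
      · exact ih e' fun u hu => h u (hu.trans h1)
      · rfl

/-- The computation. -/
def tr (σ : E → Option E) (e0 : E) : ℕ → Option E
  | 0 => some e0
  | i + 1 => (tr σ e0 i).bind σ

lemma tr_succ {σ : E → Option E} {e0 : E} {i : ℕ} {e : E} (h : tr σ e0 i = some e) :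
    tr σ e0 (i + 1) = σ e := by
  show (tr σ e0 i).bind σ = σ e
  rw [h]; rfl

lemma mac_tr {σ : E → Option E} {lam : E → ℕ} {e0 : E} (F : ℕ) : ∀ (i : ℕ) (e e' : E),
    tr σ e0 i = some e → mac σ lam F e = some e' →
    ∃ j u, tr σ e0 j = some u ∧ tr σ e0 (j + 1) = some e' ∧ lam u ≠ lam e' := by
  induction F with
  | zero => intro i e e' _ h; exact absurd h (by simp [mac])
  | succ F ih =>
    intro i e e' hi h
    unfold mac at h
    cases hs : σ e with
    | none => rw [hs] at h; exact absurd h (by simp)
    | some e1 =>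
      rw [hs] at h
      simp only [Option.bind_some] at h
      have h1 : tr σ e0 (i + 1) = some e1 := by rw [tr_succ hi, hs]
      split_ifs at h with h2
      · exact ih (i + 1) e1 e' h1 h
      · have h3 : e1 = e' := Option.some.inj h
        subst h3
        exact ⟨i, e, hi, h1, fun h => h2 h.symm⟩

lemma mac_of {σ : E → Option E} {lam : E → ℕ} {e0 e' : E} (d : ℕ) : ∀ (i : ℕ) (e : E) (F : ℕ),
    tr σ e0 i = some e → (∀ l ≤ d, ∃ u, tr σ e0 (i + l) = some u ∧ lam u = lam e) →
    tr σ e0 (i + d + 1) = some e' → lam e' ≠ lam e → d + 1 ≤ F →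
    mac σ lam F e = some e' := by
  induction d with
  | zero =>
    intro i e F h1 _ h3 h4 h5
    obtain ⟨F, rfl⟩ : ∃ F', F = F' + 1 := ⟨F - 1, by omega⟩
    unfold mac
    rw [Nat.add_zero, tr_succ h1] at h3
    rw [h3]
    simp only [Option.bind_some]
    rw [if_neg h4]
  | succ d ih =>
    intro i e F h1 h2 h3 h4 h5
    obtain ⟨F, rfl⟩ : ∃ F', F = F' + 1 := ⟨F - 1, by omega⟩
    obtain ⟨u, hu1, hu2⟩ := h2 1 (by omega)
    unfold mac
    rw [tr_succ h1] at hu1
    rw [hu1]
    simp only [Option.bind_some]
    rw [if_pos hu2]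
    refine ih (i + 1) u F (by rw [tr_succ h1, hu1]) ?_ ?_ (by rw [hu2]; exact h4) (by omega)
    · intro l hl
      obtain ⟨v, hv1, hv2⟩ := h2 (l + 1) (by omega)
      refine ⟨v, ?_, by rw [hu2]; exact hv2⟩
      rw [← hv1]
      congr 1
      omega
    · rw [← h3]
      congr 1
      omega

variable [Fintype E]

lemma rch_tr {σ : E → Option E} {lam : E → ℕ} {e0 : E} {F : ℕ} {e : E}
    (h : e ∈ rch (mac σ lam F) e0) :
    (∃ i, tr σ e0 i = some e) ∧ (e = e0 ∨
      ∃ j u, tr σ e0 j = some u ∧ tr σ e0 (j + 1) = some e ∧ lam u ≠ lam e) := by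
  have h' := mem_rch.1 h
  clear h
  induction h' with
  | refl => exact ⟨⟨0, rfl⟩, Or.inl rfl⟩
  | @tail b c hb hc ih =>
    obtain ⟨⟨i, hi⟩, -⟩ := ih
    obtain ⟨j, u, h1, h2, h3⟩ := mac_tr F i b c hi hc
    exact ⟨⟨j + 1, h2⟩, Or.inr ⟨j, u, h1, h2, h3⟩⟩

lemma rch_of_tr {σ : E → Option E} {lam : E → ℕ} {e0 : E} {F N : ℕ} {z : E}
    (hz : tr σ e0 N = some z) (hne : ∀ i < N, ∀ u, tr σ e0 i = some u → lam u ≠ lam z)
    (hF : N ≤ F) : z ∈ rch (mac σ lam F) e0 := by
  have hall : ∀ i ≤ N, ∃ u, tr σ e0 i = some u := by
    intro i hi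
    induction hk : N - i generalizing i with
    | zero => exact ⟨z, by rw [← hz]; congr 1; omega⟩
    | succ n ih =>
      obtain ⟨u, hu⟩ := ih (i + 1) (by omega) (by omega)
      cases h : tr σ e0 i with
      | some v => exact ⟨v, rfl⟩
      | none =>
        have : tr σ e0 (i + 1) = none := by
          show (tr σ e0 i).bind σ = none
          rw [h]; rfl
        rw [this] at hu
        exact absurd hu (by simp)
  have key : ∀ n i : ℕ, N - i = n → i ≤ N → ∀ e, tr σ e0 i = some e →
      e ∈ rch (mac σ lam F) e0 → z ∈ rch (mac σ lam F) e0 := by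
    intro n
    induction n using Nat.strong_induction_on with
    | _ n ih =>
      intro i hn hi e he hr
      rcases Nat.eq_or_lt_of_le hi with h | h
      · subst h
        rw [hz] at he
        rw [Option.some.inj he]
        exact hr
      · -- the first change of type
        have hex : ∃ l, i + l < N ∧ ∀ u, tr σ e0 (i + l + 1) = some u → lam u ≠ lam e := by
          refine ⟨N - i - 1, by omega, ?_⟩
          intro u hu
          have e1 : i + (N - i - 1) + 1 = N := by omega
          rw [e1, hz] at hu
          rw [← Option.some.inj hu]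
          exact fun h' => hne i h e he h'.symm
        obtain ⟨hl1, hl2⟩ := Nat.find_spec hex
        set l := Nat.find hex with hl
        obtain ⟨e', he'⟩ := hall (i + l + 1) (by omega)
        have hmac : mac σ lam F e = some e' := by
          refine mac_of l i e F he ?_ he' (hl2 e' he') (by omega)
          intro l' hl'
          rcases Nat.eq_zero_or_pos l' with h0 | h0
          · subst h0
            exact ⟨e, he, rfl⟩
          · have hmin := Nat.find_min hex (m := l' - 1) (by omega)
            push Not at hmin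
            obtain ⟨u, hu1, hu2⟩ := hmin (by omega)
            refine ⟨u, ?_, hu2⟩
            rw [← hu1]
            congr 1
            omega
        exact ih (N - (i + l + 1)) (by omega) (i + l + 1) rfl (by omega) e' he'
          (rch_step hr hmac)
  exact key N 0 (by omega) (by omega) e0 rfl (self_mem_rch _ _)

end Pool.Agent.Det
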