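import Mathlib

/-!
The modes of a `k`-head machine: in mode `i` no head is on group `i`, and the mode changes
rarely.
-/

set_option autoImplicit false

namespace Pool.Agent.Det

attribute [local instance] Classical.propDecidable

/-- The number of heads in the zone `i`. -/
noncomputable def cnt {k : ℕ} (zn : ℕ → ℕ) (i : ℕ) (pos : Fin k → ℕ) : ℕ :=
  (Finset.univ.filter fun a => i ≤ zn (pos a)).card

lemma cnt_le {k : ℕ} (zn : ℕ → ℕ) (i : ℕ) (pos : Fin k → ℕ) : cnt zn i pos ≤ k := by
  have := Finset.card_le_univ (Finset.univ.filter fun a => i ≤ zn (pos a))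
  rwa [Fintype.card_fin] at this

lemma D_ex {k : ℕ} (zn : ℕ → ℕ) (pos : Fin k → ℕ) : ∃ i, k ≤ cnt zn (i + 1) pos + i :=
  ⟨k, Nat.le_add_left _ _⟩

/-- The least `i` such that at least `k - i` heads are in the zone `i + 1`. -/
noncomputable def Dm {k : ℕ} (zn : ℕ → ℕ) (pos : Fin k → ℕ) : ℕ := Nat.find (D_ex zn pos)

lemma Dm_spec {k : ℕ} (zn : ℕ → ℕ) (pos : Fin k → ℕ) :
    k ≤ cnt zn (Dm zn pos + 1) pos + Dm zn pos := Nat.find_spec (D_ex zn pos)

lemma Dm_le {k : ℕ} (zn : ℕ → ℕ) (pos : Fin k → ℕ) : Dm zn pos ≤ k :=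
  Nat.find_min' (D_ex zn pos) (Nat.le_add_left _ _)

lemma Dm_min {k : ℕ} (zn : ℕ → ℕ) (pos : Fin k → ℕ) {i : ℕ} (h : i < Dm zn pos) :
    cnt zn (i + 1) pos + i < k := by
  have := Nat.find_min (D_ex zn pos) h
  omega

/-- If the least `i` is at least `i`, then at most `k - i` heads are in the zone `i`. -/
lemma cnt_of_le {k : ℕ} (zn : ℕ → ℕ) (pos : Fin k → ℕ) {i : ℕ} (h : i ≤ Dm zn pos) :
    cnt zn i pos + i ≤ k := by
  cases i with
  | zero => exact cnt_le zn 0 pos
  | succ i =>
    have := Dm_min zn pos (show i < Dm zn pos by omega)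
    omega

variable {k : ℕ} {zn : ℕ → ℕ} {gr : ℕ → Option ℕ}

/-- No head is on the group `Dm`. -/
lemma Dm_free (hz : ∀ p i, gr p = some i → zn p = i) (pos : Fin k → ℕ) (a : Fin k) :
    gr (pos a) ≠ some (Dm zn pos) := by
  intro h
  have h1 := hz _ _ h
  have h2 : cnt zn (Dm zn pos + 1) pos < cnt zn (Dm zn pos) pos := by
    unfold cnt
    refine Finset.card_lt_card ?_
    rw [Finset.ssubset_iff_of_subset]
    · refine ⟨a, ?_, ?_⟩
      · rw [Finset.mem_filter]
        exact ⟨Finset.mem_univ _, h1.ge⟩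
      · rw [Finset.mem_filter]
        rintro ⟨-, h3⟩
        omega
    · intro b hb
      rw [Finset.mem_filter] at hb ⊢
      exact ⟨hb.1, by omega⟩
  have h3 := Dm_spec zn pos
  have h4 := cnt_of_le zn pos (le_refl (Dm zn pos))
  omega

/-- The new mode. -/
noncomputable def upd (zn : ℕ → ℕ) (gr : ℕ → Option ℕ) (j : ℕ) (pos : Fin k → ℕ) : ℕ :=
  if Dm zn pos < j ∨ ∃ a, gr (pos a) = some j then Dm zn pos else j

lemma upd_free (hz : ∀ p i, gr p = some i → zn p = i) (j : ℕ) (pos : Fin k → ℕ) (a : Fin k) :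
    gr (pos a) ≠ some (upd zn gr j pos) := by
  unfold upd
  split_ifs with h
  · exact Dm_free hz pos a
  · push Not at h
    exact h.2 a

lemma upd_le {j : ℕ} (hj : j ≤ k) (pos : Fin k → ℕ) : upd zn gr j pos ≤ k := by
  unfold upd
  split_ifs
  · exact Dm_le zn pos
  · exact hj

/-- If the mode `i` is left upwards, then a head has moved far. -/
lemma exit_gap {g : ℕ → ℕ} (hz : ∀ p i, gr p = some i → zn p = i)
    (hg : ∀ i < k, ∀ p p', i + 1 ≤ zn p → (gr p' = some i ∨ zn p' < i) →
      p + g i ≤ p' ∨ p' + g i ≤ p)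
    {i : ℕ} (hi : i < k) (pos pos' : Fin k → ℕ) (h1 : Dm zn pos = i) (h2 : i < Dm zn pos')
    (h3 : ∃ a, gr (pos' a) = some i) :
    ∃ b, pos b + g i ≤ pos' b ∨ pos' b + g i ≤ pos b := by
  obtain ⟨a, ha⟩ := h3
  have hZ0 := Dm_spec zn pos
  rw [h1] at hZ0
  by_cases haZ : i + 1 ≤ zn (pos a)
  · exact ⟨a, hg i hi _ _ haZ (Or.inl ha)⟩
  · have h4 := cnt_of_le zn pos' h2.le
    by_contra hcon
    push Not at hcon
    have hsub : insert a (Finset.univ.filter fun b => i + 1 ≤ zn (pos b)) ⊆
        Finset.univ.filter fun b => i ≤ zn (pos' b) := by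
      intro b hb
      rw [Finset.mem_insert] at hb
      rw [Finset.mem_filter]
      refine ⟨Finset.mem_univ _, ?_⟩
      rcases hb with rfl | hb
      · exact (hz _ _ ha).ge
      · rw [Finset.mem_filter] at hb
        by_contra h5
        rcases hg i hi _ _ hb.2 (Or.inr (not_le.1 h5)) with h6 | h6
        · exact absurd h6 (by have := (hcon b).1; omega)
        · exact absurd h6 (by have := (hcon b).2; omega)
    have h5 := Finset.card_le_card hsub
    rw [Finset.card_insert_of_notMem] at h5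
    · unfold cnt at h4 hZ0
      omega
    · rw [Finset.mem_filter]
      exact fun h => haZ h.2

/-! ### Counting -/

/-- The number of the changes of mode to a mode satisfying `P`, before time `T`. -/
noncomputable def chg (md : ℕ → ℕ) (P : ℕ → Prop) (T : ℕ) : ℕ :=
  ((Finset.range T).filter fun t => P (md (t + 1)) ∧ md (t + 1) ≠ md t).card

lemma chg_zero (md : ℕ → ℕ) (P : ℕ → Prop) : chg md P 0 = 0 := by simp [chg]

lemma chg_succ_of (md : ℕ → ℕ) (P : ℕ → Prop) (T : ℕ) (h : P (md (T + 1)))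
    (h' : md (T + 1) ≠ md T) : chg md P (T + 1) = chg md P T + 1 := by
  unfold chg
  rw [Finset.range_add_one, Finset.filter_insert, if_pos ⟨h, h'⟩, Finset.card_insert_of_notMem]
  simp

lemma chg_succ_not (md : ℕ → ℕ) (P : ℕ → Prop) (T : ℕ)
    (h : ¬ (P (md (T + 1)) ∧ md (T + 1) ≠ md T)) : chg md P (T + 1) = chg md P T := by
  unfold chg
  rw [Finset.range_add_one, Finset.filter_insert, if_neg h]

lemma chg_mono (md : ℕ → ℕ) (P : ℕ → Prop) (T : ℕ) : chg md P T ≤ chg md P (T + 1) := by
  by_cases h : P (md (T + 1)) ∧ md (T + 1) ≠ md T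
  · rw [chg_succ_of md P T h.1 h.2]; omega
  · rw [chg_succ_not md P T h]

lemma chg_or (md : ℕ → ℕ) (P Q R : ℕ → Prop) (h : ∀ j, R j ↔ P j ∨ Q j)
    (hd : ∀ j, ¬ (P j ∧ Q j)) (T : ℕ) : chg md R T = chg md P T + chg md Q T := by
  unfold chg
  rw [← Finset.card_union_of_disjoint]
  · congr 1
    ext t
    rw [Finset.mem_union, Finset.mem_filter, Finset.mem_filter, Finset.mem_filter, h]
    tauto
  · rw [Finset.disjoint_left]
    intro t h1 h2
    rw [Finset.mem_filter] at h1 h2
    exact hd _ ⟨h1.2.1, h2.2.1⟩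

lemma le_chg {ι : Type} (md : ℕ → ℕ) (P : ℕ → Prop) (T : ℕ) (s : Finset ι) (f : ι → ℕ)
    (hf : Set.InjOn f s)
    (h : ∀ x ∈ s, f x < T ∧ P (md (f x + 1)) ∧ md (f x + 1) ≠ md (f x)) :
    s.card ≤ chg md P T := by
  unfold chg
  refine Finset.card_le_card_of_injOn f ?_ hf
  intro x hx
  obtain ⟨h1, h2, h3⟩ := h x hx
  rw [Finset.mem_coe, Finset.mem_filter, Finset.mem_range]
  exact ⟨h1, h2, h3⟩

lemma chg_false (md : ℕ → ℕ) (P : ℕ → Prop) (h : ∀ j, ¬ P j) (T : ℕ) : chg md P T = 0 := by
  unfold chg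
  rw [Finset.card_eq_zero, Finset.filter_eq_empty_iff]
  exact fun t _ h' => h _ h'.1

lemma chg_lt_succ (md : ℕ → ℕ) (i T : ℕ) :
    chg md (fun j => j < i + 1) T = chg md (fun j => j < i) T + chg md (fun j => j = i) T :=
  chg_or md _ _ _ (fun j => by omega) (fun j => by omega) T

lemma lip_le {x : ℕ → ℕ} {T : ℕ} (h : ∀ t < T, x (t + 1) ≤ x t + 1 ∧ x t ≤ x (t + 1) + 1)
    (t d : ℕ) (hd : t + d ≤ T) : x (t + d) ≤ x t + d ∧ x t ≤ x (t + d) + d := by
  induction d with
  | zero => simp
  | succ d ih =>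
    have h1 := ih (by omega)
    have h2 := h (t + d) (by omega)
    rw [← add_assoc]
    omega

/-- The number of the entries to mode `i` is bounded in terms of the entries to lower modes. -/
lemma entries_step {g : ℕ → ℕ} (hz : ∀ p i, gr p = some i → zn p = i)
    (hg : ∀ i < k, ∀ p p', i + 1 ≤ zn p → (gr p' = some i ∨ zn p' < i) →
      p + g i ≤ p' ∨ p' + g i ≤ p)
    (pos : ℕ → Fin k → ℕ) (md : ℕ → ℕ) (T0 : ℕ)
    (hlip : ∀ t < T0, ∀ a, pos (t + 1) a ≤ pos t a + 1 ∧ pos t a ≤ pos (t + 1) a + 1)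
    (hmd : ∀ t < T0, md (t + 1) = upd zn gr (md t) (pos (t + 1)))
    (i : ℕ) (hi : i < k) (h0 : md 0 ≠ i) : ∀ T ≤ T0,
    (md T = i → ∃ t0 < T, Dm zn (pos (t0 + 1)) = i ∧
      (chg md (fun j => j = i) T) * g i ≤ (chg md (fun j => j < i) T) * g i + t0 + g i) ∧
    (md T ≠ i → (chg md (fun j => j = i) T) * g i ≤ (chg md (fun j => j < i) T) * g i + T) := by
  intro T
  induction T with
  | zero =>
    intro _
    refine ⟨fun h => absurd h h0, fun _ => ?_⟩
    rw [chg_zero, chg_zero]
    omega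
  | succ T ih =>
    intro hT
    obtain ⟨ih1, ih2⟩ := ih (by omega)
    have hu := hmd T (by omega)
    have hmono := Nat.mul_le_mul_right (g i) (chg_mono md (fun j => j < i) T)
    by_cases hc : md T = i
    · obtain ⟨t0, ht0, hD, hb⟩ := ih1 hc
      by_cases hc' : md (T + 1) = i
      · refine ⟨fun _ => ⟨t0, by omega, hD, ?_⟩, fun h => absurd hc' h⟩
        rw [chg_succ_not md (fun j => j = i) T (by rw [hc, hc']; simp)]
        omega
      · refine ⟨fun h => absurd h hc', fun _ => ?_⟩
        rw [chg_succ_not md (fun j => j = i) T (fun h => hc' h.1)]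
        rcases Nat.lt_or_ge (md (T + 1)) i with hlt | hge
        · rw [chg_succ_of md (fun j => j < i) T hlt (by omega), add_mul]
          omega
        · have hgt : i < md (T + 1) := by omega
          rw [hu, hc] at hgt
          unfold upd at hgt
          split_ifs at hgt with hcase
          · have hcase' : ∃ a, gr (pos (T + 1) a) = some i := by
              rcases hcase with h | h
              · omega
              · exact h
            obtain ⟨b, hb'⟩ := exit_gap hz hg hi (pos (t0 + 1)) (pos (T + 1)) hD hgt hcase'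
            obtain ⟨d, hd⟩ : ∃ d, T + 1 = t0 + 1 + d := ⟨T - t0, by omega⟩
            have hl := lip_le (x := fun t => pos t b) (T := T0) (fun t ht => hlip t ht b)
              (t0 + 1) d (by omega)
            rw [← hd] at hl
            omega
          · omega
    · have hb := ih2 hc
      by_cases hc' : md (T + 1) = i
      · refine ⟨fun _ => ⟨T, by omega, ?_, ?_⟩, fun h => absurd hc' h⟩
        · rw [hu] at hc'
          unfold upd at hc'
          split_ifs at hc' with hcase
          · exact hc'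
          · exact absurd hc' hc
        · rw [chg_succ_of md (fun j => j = i) T hc' (by omega), add_mul]
          omega
      · refine ⟨fun h => absurd h hc', fun _ => ?_⟩
        rw [chg_succ_not md (fun j => j = i) T (fun h => hc' h.1)]
        omega

/-- The number of the entries to mode `i`. -/
theorem entries {g : ℕ → ℕ} (hz : ∀ p i, gr p = some i → zn p = i)
    (hg : ∀ i < k, ∀ p p', i + 1 ≤ zn p → (gr p' = some i ∨ zn p' < i) →
      p + g i ≤ p' ∨ p' + g i ≤ p)
    (hgpos : ∀ i < k, 0 < g i) (hganti : ∀ i j, i ≤ j → j < k → g j ≤ g i)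
    (pos : ℕ → Fin k → ℕ) (md : ℕ → ℕ) (T0 : ℕ)
    (hlip : ∀ t < T0, ∀ a, pos (t + 1) a ≤ pos t a + 1 ∧ pos t a ≤ pos (t + 1) a + 1)
    (hmd : ∀ t < T0, md (t + 1) = upd zn gr (md t) (pos (t + 1)))
    (h0 : k ≤ md 0) (i : ℕ) (hi : i < k) :
    chg md (fun j => j = i) T0 ≤ 2 ^ i * (T0 / g i + 1) := by
  have hone : ∀ j ≤ i, chg md (fun l => l = j) T0 ≤ chg md (fun l => l < j) T0 +
      (T0 / g i + 1) := by
    intro j hj
    have hjk : j < k := by omega
    obtain ⟨h1, h2⟩ := entries_step hz hg pos md T0 hlip hmd j hjk (by omega) T0 le_rfl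
    have h3 : (chg md (fun l => l = j) T0) * g j ≤
        (chg md (fun l => l < j) T0) * g j + T0 + g j := by
      by_cases hc : md T0 = j
      · obtain ⟨t0, ht0, -, hb⟩ := h1 hc
        omega
      · have := h2 hc
        omega
    have hgj := hgpos j hjk
    have h4 : chg md (fun l => l = j) T0 ≤ chg md (fun l => l < j) T0 + (T0 / g j + 1) := by
      by_contra hcon
      push Not at hcon
      have h5 : (chg md (fun l => l < j) T0 + (T0 / g j + 1) + 1) * g j ≤
          (chg md (fun l => l = j) T0) * g j := Nat.mul_le_mul_right _ hcon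
      have h6 : T0 < (T0 / g j + 1) * g j := by
        have := Nat.lt_div_mul_add hgj (a := T0)
        rw [add_mul, one_mul]
        omega
      have h7 : (chg md (fun l => l < j) T0 + (T0 / g j + 1) + 1) * g j =
          (chg md (fun l => l < j) T0) * g j + (T0 / g j + 1) * g j + g j := by ring
      omega
    have h5 : T0 / g j ≤ T0 / g i := Nat.div_le_div_left (hganti j i hj hi) (hgpos i hi)
    omega
  have hlow : ∀ j ≤ i, chg md (fun l => l < j) T0 + (T0 / g i + 1) ≤ 2 ^ j * (T0 / g i + 1) := by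
    intro j
    induction j with
    | zero =>
      intro _
      have : chg md (fun l => l < 0) T0 = 0 := chg_false md _ (fun j => by omega) T0
      rw [this]
      omega
    | succ j ih =>
      intro hj
      have h1 := ih (by omega)
      have h2 := hone j (by omega)
      rw [chg_lt_succ]
      have h3 : 2 ^ (j + 1) * (T0 / g i + 1) = 2 ^ j * (T0 / g i + 1) + 2 ^ j * (T0 / g i + 1) := by
        ring
      omega
  have h1 := hone i le_rfl
  have h2 := hlow i le_rfl
  omega

end Pool.Agent.Det
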