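import Pool.Agent.Lib_helper16.Det.Bound
import Pool.Agent.Lib_helper16.Det.Macro
import Pool.Agent.Lib_helper16.Det.Modes
import Pool.Agent.Lib_helper16.Det.Geo

/-!
The discrepancy bound for multihead machines.
-/

set_option autoImplicit false

namespace Pool.Agent.Det

open Pool.Agent.Heads

attribute [local instance] Classical.propDecidable

/-! ### Cells -/

/-- The zone of a cell. -/
def znc (m k p : ℕ) : ℕ := if 1 ≤ p ∧ p ≤ (5 * m) ^ k then zo m k (p - 1) else 0

/-- The group of a cell. -/
def grc (m k p : ℕ) : Option ℕ := if 1 ≤ p ∧ p ≤ (5 * m) ^ k then gp m k (p - 1) else none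

/-- The gaps. -/
def gap (m k i : ℕ) : ℕ := m * (5 * m) ^ (k - 1 - i)

lemma znc_of_grc (m k p i : ℕ) (h : grc m k p = some i) : znc m k p = i := by
  unfold grc at h
  unfold znc
  split_ifs at h ⊢ with h1
  exact zo_of_gp m k _ _ h

lemma gap_cells (m k : ℕ) (hm : 0 < m) : ∀ i < k, ∀ p p', i + 1 ≤ znc m k p →
    (grc m k p' = some i ∨ znc m k p' < i) → p + gap m k i ≤ p' ∨ p' + gap m k i ≤ p := by
  intro i hi p p' hz h
  unfold znc at hz
  split_ifs at hz with h1
  · by_cases h2 : 1 ≤ p' ∧ p' ≤ (5 * m) ^ k
    · have h3 : gp m k (p' - 1) = some i ∨ zo m k (p' - 1) < i := by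
        rcases h with h | h
        · left; unfold grc at h; rwa [if_pos h2] at h
        · right; unfold znc at h; rwa [if_pos h2] at h
      have := gap_inner m hm k i (p - 1) (p' - 1) hi (by omega) (by omega) hz h3
      unfold gap
      omega
    · have h3 : 0 < i := by
        rcases h with h | h
        · unfold grc at h; rw [if_neg h2] at h; exact absurd h (by simp)
        · omega
      obtain ⟨k', rfl⟩ : ∃ k', k = k' + 1 := ⟨k - 1, by omega⟩
      obtain ⟨h4, h5⟩ := zo_pos hm (show 1 ≤ zo m (k' + 1) (p - 1) by omega)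
      have h6 : gap m (k' + 1) i ≤ m * (5 * m) ^ k' :=
        Nat.mul_le_mul_left _ (pow_le_of hm (by omega))
      have e6 : 2 * m * (5 * m) ^ k' = m * (5 * m) ^ k' + m * (5 * m) ^ k' := by ring
      have e7 : (5 * m) ^ (k' + 1) = 4 * m * (5 * m) ^ k' + m * (5 * m) ^ k' := by ring
      rw [e7] at h2
      omega
  · omega

lemma gap_pos (m k i : ℕ) (hm : 0 < m) : 0 < gap m k i := by unfold gap; positivity

lemma gap_anti (m k : ℕ) (hm : 0 < m) (i j : ℕ) (hij : i ≤ j) : gap m k j ≤ gap m k i :=
  Nat.mul_le_mul_left _ (pow_le_of hm (by omega))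

/-- The word of length `n`. -/
def wd (m k n : ℕ) (W : Wt m k Unit) : List Lt :=
  (List.range n).map fun p => if p < (5 * m) ^ k then lt m k Unit W () p else Lt.pad

lemma length_wd (m k n : ℕ) (W : Wt m k Unit) : (wd m k n W).length = n := by simp [wd]

lemma getElem?_wd (m k n : ℕ) (W : Wt m k Unit) (p : ℕ) (hp : p < n) :
    (wd m k n W)[p]? = some (if p < (5 * m) ^ k then lt m k Unit W () p else Lt.pad) := by
  unfold wd
  rw [List.getElem?_map, List.getElem?_range hp]
  rfl

lemma tape_wd_congr (m k n : ℕ) (W W' : Wt m k Unit) (j p : ℕ) (h : Agree m k Unit j W W')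
    (hp : grc m k p ≠ some j) : tape (wd m k n W) p = tape (wd m k n W') p := by
  cases p with
  | zero => rfl
  | succ p =>
    have key : (wd m k n W)[p]? = (wd m k n W')[p]? := by
      rcases Nat.lt_or_ge p n with h1 | h1
      · rw [getElem?_wd _ _ _ _ _ h1, getElem?_wd _ _ _ _ _ h1]
        by_cases h2 : p < (5 * m) ^ k
        · rw [if_pos h2, if_pos h2]
          congr 1
          refine lt_congr m k Unit W W' () p j ?_ h
          unfold grc at hp
          rw [if_pos ⟨by omega, by omega⟩] at hp
          exact hp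
        · rw [if_neg h2, if_neg h2]
      · rw [List.getElem?_eq_none (by rw [length_wd]; exact h1),
          List.getElem?_eq_none (by rw [length_wd]; exact h1)]
    unfold tape
    simp only
    rw [key]

lemma move_le {N p : ℕ} (hp : p ≤ N) (d : Dir) : move N p d ≤ N := by
  cases d with
  | L => show p - 1 ≤ N; omega
  | S => exact hp
  | R => exact Nat.min_le_right _ _

lemma move_lip {N p : ℕ} (hp : p ≤ N) (d : Dir) : move N p d ≤ p + 1 ∧ p ≤ move N p d + 1 := by
  cases d with
  | L => show p - 1 ≤ p + 1 ∧ p ≤ p - 1 + 1; omega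
  | S => show p ≤ p + 1 ∧ p ≤ p + 1; omega
  | R =>
    show min (p + 1) N ≤ p + 1 ∧ p ≤ min (p + 1) N + 1
    omega

/-! ### Machines -/

/-- A machine with `k` heads whose steps may depend on the time. -/
structure LM (k : ℕ) (Q : Type) where
  nx : ℕ → Q → (Fin k → Sym Lt) → Option (Q × (Fin k → Dir))
  q0 : Q
  acc : Q → Prop

variable {k : ℕ} {Q : Type} (M : LM k Q)

/-- The computation. -/
def LM.cf (M : LM k Q) (w : List Lt) : ℕ → Option (Q × (Fin k → ℕ))
  | 0 => some (M.q0, fun _ => 0)
  | i + 1 => (M.cf w i).bind fun c => (M.nx i c.1 fun a => tape w (c.2 a)).map fun qd =>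
      (qd.1, fun a => move (w.length + 1) (c.2 a) (qd.2 a))

/-- Acceptance in at most `t` steps. -/
def LM.AccIn (M : LM k Q) (w : List Lt) (t : ℕ) : Prop :=
  ∃ i ≤ t, ∃ c, M.cf w i = some c ∧ M.acc c.1

lemma LM.cf_le (M : LM k Q) (w : List Lt) (i : ℕ) : ∀ c, M.cf w i = some c →
    ∀ a, c.2 a ≤ w.length + 1 := by
  induction i with
  | zero =>
    intro c h a
    have : (M.q0, fun _ => 0) = c := Option.some.inj h
    rw [← this]
    exact Nat.zero_le _
  | succ i ih =>
    intro c h a
    unfold LM.cf at h
    rw [Option.bind_eq_some_iff] at h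
    obtain ⟨c', hc', h⟩ := h
    rw [Option.map_eq_some_iff] at h
    obtain ⟨qd, -, rfl⟩ := h
    exact move_le (ih c' hc' a) _

/-- The extended configurations: state, positions, mode, time. -/
abbrev Ec (k : ℕ) (Q : Type) (n t : ℕ) : Type :=
  Q × (Fin k → Fin (n + 2)) × Fin (k + 1) × Fin (t + 1)

/-- The positions of an extended configuration. -/
def ps {n t : ℕ} (e : Ec k Q n t) : Fin k → ℕ := fun a => e.2.1 a

/-- The type of an extended configuration. -/
noncomputable def lm {n t : ℕ} (M : LM k Q) (e : Ec k Q n t) : ℕ :=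
  if M.acc e.1 then 0 else (e.2.2.1 : ℕ) + 1

/-- The successor configuration. -/
noncomputable def nxt (m : ℕ) {n t : ℕ} (e : Ec k Q n t) (ht : (e.2.2.2 : ℕ) < t)
    (qd : Q × (Fin k → Dir)) : Ec k Q n t :=
  (qd.1, fun a => ⟨move (n + 1) (e.2.1 a) (qd.2 a), by
      have := move_le (N := n + 1) (Nat.lt_succ_iff.1 (e.2.1 a).2) (qd.2 a); omega⟩,
    ⟨upd (znc m k) (grc m k) e.2.2.1 (fun a => move (n + 1) (e.2.1 a) (qd.2 a)),
      Nat.lt_succ_of_le (upd_le (Nat.lt_succ_iff.1 e.2.2.1.2) _)⟩,
    ⟨e.2.2.2 + 1, by omega⟩)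

/-- One step. -/
noncomputable def sg (m n t : ℕ) (M : LM k Q) (W : Wt m k Unit) (e : Ec k Q n t) :
    Option (Ec k Q n t) :=
  if M.acc e.1 then none
  else if ∃ a, grc m k (ps e a) = some (e.2.2.1 : ℕ) then none
  else if ht : (e.2.2.2 : ℕ) < t then
    (M.nx e.2.2.2 e.1 fun a => tape (wd m k n W) (ps e a)).map (nxt m e ht)
  else none

/-- The initial extended configuration. -/
noncomputable def e0 (m n t : ℕ) (M : LM k Q) : Ec k Q n t :=
  (M.q0, fun _ => ⟨0, by omega⟩, ⟨Dm (znc m k) (fun _ : Fin k => 0),
    Nat.lt_succ_of_le (Dm_le _ _)⟩, ⟨0, by omega⟩)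

lemma sg_some {m n t : ℕ} {W : Wt m k Unit} {e e' : Ec k Q n t} (h : sg m n t M W e = some e') :
    ¬ M.acc e.1 ∧ (∀ a, grc m k (ps e a) ≠ some (e.2.2.1 : ℕ)) ∧
    ∃ (ht : (e.2.2.2 : ℕ) < t) (qd : Q × (Fin k → Dir)),
      (M.nx e.2.2.2 e.1 fun a => tape (wd m k n W) (ps e a)) = some qd ∧ e' = nxt m e ht qd := by
  unfold sg at h
  split_ifs at h with h1 h2 h3
  rw [Option.map_eq_some_iff] at h
  obtain ⟨qd, hqd, rfl⟩ := h
  push Not at h2
  exact ⟨h1, h2, h3, qd, hqd, rfl⟩

/-- The extended computation follows the computation. -/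
lemma tr_cf {m n t : ℕ} (W : Wt m k Unit) (i : ℕ) : ∀ e : Ec k Q n t,
    tr (sg m n t M W) (e0 m n t M) i = some e →
    M.cf (wd m k n W) i = some (e.1, ps e) ∧ (e.2.2.2 : ℕ) = i := by
  induction i with
  | zero =>
    intro e h
    have : e0 m n t M = e := Option.some.inj h
    rw [← this]
    exact ⟨rfl, rfl⟩
  | succ i ih =>
    intro e h
    have h' : (tr (sg m n t M W) (e0 m n t M) i).bind (sg m n t M W) = some e := h
    rw [Option.bind_eq_some_iff] at h'
    obtain ⟨e1, h1, h2⟩ := h'
    obtain ⟨h3, h4⟩ := ih e1 h1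
    obtain ⟨-, -, ht, qd, h5, rfl⟩ := sg_some M h2
    refine ⟨?_, ?_⟩
    · unfold LM.cf
      rw [h3]
      simp only [Option.bind_some]
      rw [h4] at h5
      rw [h5, length_wd]
      rfl
    · show (e1.2.2.2 : ℕ) + 1 = i + 1
      rw [h4]

/-- The computation is followed by the extended computation. -/
lemma cf_tr {m n t : ℕ} (W : Wt m k Unit) (i : ℕ) : ∀ c, M.cf (wd m k n W) i = some c → i ≤ t →
    (∀ l < i, ∀ c', M.cf (wd m k n W) l = some c' → ¬ M.acc c'.1) →
    ∃ e : Ec k Q n t, tr (sg m n t M W) (e0 m n t M) i = some e ∧ (e.1, ps e) = c ∧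
      ∀ a, grc m k (ps e a) ≠ some (e.2.2.1 : ℕ) := by
  induction i with
  | zero =>
    intro c h _ _
    refine ⟨e0 m n t M, rfl, ?_, ?_⟩
    · exact Option.some.inj h
    · intro a
      exact Dm_free (fun p i => znc_of_grc m k p i) (fun _ : Fin k => 0) a
  | succ i ih =>
    intro c h hi hacc
    unfold LM.cf at h
    rw [Option.bind_eq_some_iff] at h
    obtain ⟨c', hc', h⟩ := h
    rw [Option.map_eq_some_iff] at h
    obtain ⟨qd, hqd, rfl⟩ := h
    obtain ⟨e, h1, h2, h3⟩ := ih c' hc' (by omega) (fun l hl => hacc l (by omega))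
    obtain ⟨-, h4⟩ := tr_cf M W i e h1
    have h5 : ¬ M.acc e.1 := by
      have := hacc i (by omega) c' hc'
      rw [← h2] at this
      exact this
    have ht : (e.2.2.2 : ℕ) < t := by omega
    have hs : sg m n t M W e = some (nxt m e ht qd) := by
      unfold sg
      rw [if_neg h5, if_neg (by push Not; exact h3), dif_pos ht]
      rw [← h2] at hqd
      rw [h4, hqd]
      rfl
    refine ⟨nxt m e ht qd, ?_, ?_, ?_⟩
    · rw [tr_succ h1, hs]
    · rw [← h2, length_wd]
      rfl
    · intro a
      exact upd_free (fun p i => znc_of_grc m k p i) _ _ a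

lemma tr_mode {m n t : ℕ} (W : Wt m k Unit) (i : ℕ) (e e' : Ec k Q n t)
    (h : tr (sg m n t M W) (e0 m n t M) i = some e)
    (h' : tr (sg m n t M W) (e0 m n t M) (i + 1) = some e') :
    (e'.2.2.1 : ℕ) = upd (znc m k) (grc m k) e.2.2.1 (ps e') ∧
    ∀ a, ps e' a ≤ ps e a + 1 ∧ ps e a ≤ ps e' a + 1 := by
  rw [tr_succ h] at h'
  obtain ⟨-, -, ht, qd, -, rfl⟩ := sg_some M h'
  refine ⟨rfl, ?_⟩
  intro a
  exact move_lip (Nat.lt_succ_iff.1 (e.2.1 a).2) _

/-- The predicate on the set of the configurations visited. -/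
noncomputable def Psi (m n t : ℕ) (M : LM k Q) (V : Finset (Ec k Q n t)) : Prop :=
  (∃ e ∈ V, M.acc e.1) ∧ ∀ j < k, (typ (lm M) (1 + j) V).card ≤ 2 ^ j * (t / gap m k j + 1)

variable [Fintype Q]

lemma psi_iff {m n t : ℕ} (hm : 0 < m) (W : Wt m k Unit) :
    Psi m n t M (rch (mac (sg m n t M W) (lm M) (t + 1)) (e0 m n t M)) ↔
      M.AccIn (wd m k n W) t := by
  constructor
  · rintro ⟨⟨e, he, hacc⟩, -⟩
    obtain ⟨⟨i, hi⟩, -⟩ := rch_tr he
    obtain ⟨h1, h2⟩ := tr_cf M W i e hi
    have := e.2.2.2.2
    exact ⟨i, by omega, _, h1, hacc⟩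
  · intro hA
    have hA' : ∃ i, i ≤ t ∧ ∃ c, M.cf (wd m k n W) i = some c ∧ M.acc c.1 := hA
    obtain ⟨hT1, c, hT2, hT3⟩ := Nat.find_spec hA'
    have hmin : ∀ l < Nat.find hA', ∀ c', M.cf (wd m k n W) l = some c' → ¬ M.acc c'.1 := by
      intro l hl c' hc' hacc
      exact Nat.find_min hA' hl ⟨by omega, c', hc', hacc⟩
    set T := Nat.find hA' with hT
    have hall : ∀ i ≤ T, ∃ e : Ec k Q n t, tr (sg m n t M W) (e0 m n t M) i = some e := by
      intro i hi
      have hcf : ∃ c, M.cf (wd m k n W) i = some c := by
        induction hk : T - i generalizing i with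
        | zero => exact ⟨c, by rw [← hT2]; congr 1; omega⟩
        | succ d ih =>
          obtain ⟨c1, hc1⟩ := ih (i + 1) (by omega) (by omega)
          unfold LM.cf at hc1
          rw [Option.bind_eq_some_iff] at hc1
          obtain ⟨c', hc', -⟩ := hc1
          exact ⟨c', hc'⟩
      obtain ⟨ci, hci⟩ := hcf
      obtain ⟨e, he, -⟩ := cf_tr (t := t) M W i ci hci (by omega) (fun l hl => hmin l (by omega))
      exact ⟨e, he⟩
    have : Nonempty (Ec k Q n t) := ⟨e0 m n t M⟩
    choose! ef hef using hall
    obtain ⟨hz1, -⟩ := tr_cf M W T (ef T) (hef T le_rfl)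
    have hzacc : M.acc (ef T).1 := by
      rw [hT2] at hz1
      have := Option.some.inj hz1
      rw [this] at hT3
      exact hT3
    have hnacc : ∀ i < T, ¬ M.acc (ef i).1 := by
      intro i hi
      obtain ⟨h1, -⟩ := tr_cf M W i (ef i) (hef i hi.le)
      exact hmin i hi _ h1
    have hlamz : lm M (ef T) = 0 := if_pos hzacc
    refine ⟨⟨ef T, ?_, hzacc⟩, ?_⟩
    · refine rch_of_tr (hef T le_rfl) ?_ (by omega)
      intro i hi u hu
      rw [hef i hi.le] at hu
      rw [← Option.some.inj hu, hlamz]
      unfold lm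
      rw [if_neg (hnacc i hi)]
      omega
    · intro j hj
      -- the modes and the positions
      let md : ℕ → ℕ := fun i => (ef i).2.2.1
      let pos : ℕ → Fin k → ℕ := fun i => ps (ef i)
      have hcount : chg md (fun l => l = j) T ≤ 2 ^ j * (T / gap m k j + 1) := by
        refine entries (g := gap m k) (fun p i => znc_of_grc m k p i) (gap_cells m k hm)
          (fun i _ => gap_pos m k i hm) (fun i j h _ => gap_anti m k hm i j h) pos md T ?_ ?_ ?_
          j hj
        · intro s hs a
          exact (tr_mode M W s _ _ (hef s hs.le) (hef (s + 1) hs)).2 a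
        · intro s hs
          exact (tr_mode M W s _ _ (hef s hs.le) (hef (s + 1) hs)).1
        · have h1 : ef 0 = e0 m n t M := by
            have := hef 0 (Nat.zero_le _)
            exact (Option.some.inj this).symm
          show k ≤ ((ef 0).2.2.1 : ℕ)
          rw [h1]
          show k ≤ Dm (znc m k) (fun _ : Fin k => 0)
          have h2 := Dm_spec (znc m k) (fun _ : Fin k => 0)
          have h3 : cnt (znc m k) (Dm (znc m k) (fun _ : Fin k => 0) + 1)
              (fun _ : Fin k => 0) = 0 := by
            unfold cnt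
            rw [Finset.card_eq_zero, Finset.filter_eq_empty_iff]
            intro a _
            have : znc m k 0 = 0 := by unfold znc; rw [if_neg (by omega)]
            rw [this]
            omega
          omega
      have hle : (typ (lm M) (1 + j) (rch (mac (sg m n t M W) (lm M) (t + 1))
          (e0 m n t M))).card ≤ chg md (fun l => l = j) T := by
        -- every visited configuration of type `1 + j` starts a segment
        have hent : ∀ e ∈ typ (lm M) (1 + j) (rch (mac (sg m n t M W) (lm M) (t + 1))
            (e0 m n t M)), ∃ s < T, ef (s + 1) = e ∧ md (s + 1) = j ∧ md (s + 1) ≠ md s := by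
          intro e he
          obtain ⟨he1, he2⟩ := mem_typ.1 he
          obtain ⟨-, h1⟩ := rch_tr he1
          have hnotacc : ¬ M.acc e.1 := by
            intro h
            unfold lm at he2
            rw [if_pos h] at he2
            omega
          have hmode : (e.2.2.1 : ℕ) = j := by
            unfold lm at he2
            rw [if_neg hnotacc] at he2
            omega
          have hbound : ∀ s e', tr (sg m n t M W) (e0 m n t M) s = some e' → s ≤ T := by
            intro s e' hs
            by_contra hcon
            have hnone : ∀ d, tr (sg m n t M W) (e0 m n t M) (T + 1 + d) = none := by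
              intro d
              induction d with
              | zero =>
                rw [Nat.add_zero, tr_succ (hef T le_rfl)]
                unfold sg
                rw [if_pos hzacc]
              | succ d ih =>
                show (tr (sg m n t M W) (e0 m n t M) (T + 1 + d)).bind _ = none
                rw [ih]
                rfl
            have := hnone (s - (T + 1))
            rw [show T + 1 + (s - (T + 1)) = s by omega, hs] at this
            exact absurd this (by simp)
          rcases h1 with h1 | ⟨s, u, h1, h2, h3⟩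
          · exfalso
            have h2 : ef 0 = e0 m n t M := by
              have := hef 0 (Nat.zero_le _)
              exact (Option.some.inj this).symm
            rw [h1] at hmode
            have hmode' : Dm (znc m k) (fun _ : Fin k => 0) = j := hmode
            have h2 := Dm_spec (znc m k) (fun _ : Fin k => 0)
            have h3 : cnt (znc m k) (Dm (znc m k) (fun _ : Fin k => 0) + 1)
                (fun _ : Fin k => 0) = 0 := by
              unfold cnt
              rw [Finset.card_eq_zero, Finset.filter_eq_empty_iff]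
              intro a _
              have : znc m k 0 = 0 := by unfold znc; rw [if_neg (by omega)]
              rw [this]
              omega
            omega
          · have hsT := hbound (s + 1) e h2
            refine ⟨s, by omega, ?_, ?_, ?_⟩
            · have := hef (s + 1) hsT
              rw [h2] at this
              exact (Option.some.inj this).symm
            · have := hef (s + 1) hsT
              rw [h2] at this
              show ((ef (s + 1)).2.2.1 : ℕ) = j
              rw [← Option.some.inj this]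
              exact hmode
            · have g1 := hef (s + 1) hsT
              have g2 := hef s (by omega)
              rw [h2] at g1
              rw [h1] at g2
              have g1' := Option.some.inj g1
              have g2' := Option.some.inj g2
              show ((ef (s + 1)).2.2.1 : ℕ) ≠ ((ef s).2.2.1 : ℕ)
              rw [← g1', ← g2']
              intro hcon
              apply h3
              have hu : ¬ M.acc u.1 := by
                rw [g2']
                exact hnacc s (by omega)
              unfold lm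
              rw [if_neg hu, if_neg hnotacc, hcon]
        choose! sf hsf using hent
        refine le_chg md _ T _ sf ?_ ?_
        · intro e he e' he' heq
          obtain ⟨-, g2, -⟩ := hsf e he
          obtain ⟨-, g2', -⟩ := hsf e' he'
          rw [← g2, ← g2', heq]
        · intro e he
          obtain ⟨g1, -, g3, g4⟩ := hsf e he
          exact ⟨g1, g3, g4⟩
      refine hle.trans (hcount.trans ?_)
      refine Nat.mul_le_mul_left _ ?_
      exact Nat.succ_le_succ (Nat.div_le_div_right hT1)

/-- The discrepancy bound for machines. -/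
theorem corr {m m' n t L : ℕ} (hm64 : m = 64 * m') (hm : 1 ≤ m') (M : LM k Q)
    (hL : Fintype.card (Ec k Q n t) * (Fintype.card (Ec k Q n t) + 1) + 1 ≤ 2 ^ L)
    (hcnt : ∀ j < k, 2 ^ j * (2 ^ j * (t / gap m k j + 1) * L) ≤ m' * (16 * m') ^ j) :
    |∑ W : Wt m k Unit, sv m k Unit W () * ind (M.AccIn (wd m k n W) t)| ≤
      (1 / 2) ^ m' * Fintype.card (Wt m k Unit) := by
  have h := disc m m' hm64 hm (lm M) (e0 m n t M) (fun i => 2 ^ (i - 1) * (t / gap m k (i - 1) + 1))
    L hL k Unit 1 Unit (fun _ W => mac (sg m n t M W) (lm M) (t + 1)) (fun _ => Psi m n t M)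
    Finset.univ 1 le_rfl (by simp) ?_ ?_ ?_ ?_
  · have e1 : ∀ W : Wt m k Unit, chi m k Unit Finset.univ W *
        ∏ _i : Unit, ind (Psi m n t M (rch (mac (sg m n t M W) (lm M) (t + 1))
          (e0 m n t M))) =
        sv m k Unit W () * ind (M.AccIn (wd m k n W) t) := by
      intro W
      unfold chi
      rw [Finset.prod_const, Finset.card_univ, Fintype.card_unit, pow_one,
        ind_congr (psi_iff M (by omega) W), Fintype.prod_unique]
    rw [Finset.sum_congr rfl fun W _ => e1 W, mul_one] at h
    exact h
  · intro e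
    unfold lm
    split_ifs
    · exact Nat.zero_le _
    · have := e.2.2.1.2
      omega
  · intro _ e W W' hag
    refine mac_congr (t + 1) e ?_
    intro u hu
    by_cases hacc : M.acc u.1
    · unfold sg
      rw [if_pos hacc, if_pos hacc]
    · have hl : lm M u = (u.2.2.1 : ℕ) + 1 := if_neg hacc
      have hag' := hag (u.2.2.1 : ℕ) (by rw [← hu, hl]; omega)
      unfold sg
      rw [if_neg hacc, if_neg hacc]
      by_cases hg : ∃ a, grc m k (ps u a) = some (u.2.2.1 : ℕ)
      · rw [if_pos hg, if_pos hg]
      · rw [if_neg hg, if_neg hg]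
        push Not at hg
        have : (fun a => tape (wd m k n W) (ps u a)) = fun a => tape (wd m k n W') (ps u a) := by
          funext a
          exact tape_wd_congr m k n W W' _ _ hag' (hg a)
        rw [this]
  · intro _ V hV j hj
    have := hV.2 j hj
    rwa [show (1 + j) - 1 = j by omega]
  · intro j hj
    have := hcnt j hj
    rw [show (1 + j) - 1 = j by omega, Fintype.card_unit, one_mul, mul_one]
    exact this

end Pool.Agent.Det
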