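import Pool.Agent.Lib_helper16.Det.Disc

/-!
Deterministic systems, freezing the steps of one type.
-/

set_option autoImplicit false

namespace Pool.Agent.Det

open Finset

attribute [local instance] Classical.propDecidable

variable {E : Type} [Fintype E]

/-- The set of the configurations reachable from `e0`. -/
noncomputable def rch (S : E → Option E) (e0 : E) : Finset E :=
  Finset.univ.filter fun e => Relation.ReflTransGen (fun a b => S a = some b) e0 e

lemma mem_rch {S : E → Option E} {e0 e : E} :
    e ∈ rch S e0 ↔ Relation.ReflTransGen (fun a b => S a = some b) e0 e := by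
  simp [rch]

lemma self_mem_rch (S : E → Option E) (e0 : E) : e0 ∈ rch S e0 :=
  mem_rch.2 Relation.ReflTransGen.refl

lemma rch_step {S : E → Option E} {e0 e e' : E} (h : e ∈ rch S e0) (h' : S e = some e') :
    e' ∈ rch S e0 :=
  mem_rch.2 ((mem_rch.1 h).tail h')

/-- The indicator of a proposition. -/
noncomputable def ind (P : Prop) : ℝ := if P then 1 else 0

lemma ind_true {P : Prop} (h : P) : ind P = 1 := if_pos h

lemma ind_false {P : Prop} (h : ¬ P) : ind P = 0 := if_neg h

lemma ind_nonneg (P : Prop) : 0 ≤ ind P := by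
  unfold ind; split_ifs <;> norm_num

lemma ind_le_one (P : Prop) : ind P ≤ 1 := by
  unfold ind; split_ifs <;> norm_num

lemma ind_congr {P Q : Prop} (h : P ↔ Q) : ind P = ind Q := by
  unfold ind
  by_cases hP : P
  · rw [if_pos hP, if_pos (h.1 hP)]
  · rw [if_neg hP, if_neg (fun hQ => hP (h.2 hQ))]

/-- The domain of a partial map. -/
noncomputable def dm (ρ : E → Option (Option E)) : Finset E :=
  Finset.univ.filter fun e => ρ e ≠ none

lemma mem_dm {ρ : E → Option (Option E)} {e : E} : e ∈ dm ρ ↔ ρ e ≠ none := by
  simp [dm]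

/-- The steps of type `d` are replaced by those prescribed by `ρ`. -/
noncomputable def fz (lam : E → ℕ) (d : ℕ) (ρ : E → Option (Option E)) (S : E → Option E) :
    E → Option E :=
  fun e => if lam e = d then (ρ e).getD none else S e

/-- The partial maps on at most `N` configurations, all of type `d`. -/
noncomputable def PM (lam : E → ℕ) (d N : ℕ) : Finset (E → Option (Option E)) :=
  Finset.univ.filter fun ρ => (∀ e, ρ e ≠ none → lam e = d) ∧ (dm ρ).card ≤ N

/-- The configurations of type `d` in `V`. -/
noncomputable def typ (lam : E → ℕ) (d : ℕ) (V : Finset E) : Finset E :=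
  V.filter fun e => lam e = d

lemma mem_typ {lam : E → ℕ} {d : ℕ} {V : Finset E} {e : E} :
    e ∈ typ lam d V ↔ e ∈ V ∧ lam e = d := by
  simp [typ]

/-- If the prescribed steps are right and are exactly those made, then the frozen system behaves
as the original one. -/
lemma rch_fz {lam : E → ℕ} {d : ℕ} {ρ : E → Option (Option E)} {S : E → Option E} {e0 : E}
    (h1 : ∀ e v, ρ e = some v → S e = v) (h2 : typ lam d (rch (fz lam d ρ S) e0) = dm ρ) :
    rch (fz lam d ρ S) e0 = rch S e0 := by
  have key : ∀ e ∈ rch (fz lam d ρ S) e0, fz lam d ρ S e = S e := by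
    intro e he
    by_cases hl : lam e = d
    · have h3 : e ∈ dm ρ := by rw [← h2]; exact mem_typ.2 ⟨he, hl⟩
      obtain ⟨v, hv⟩ := Option.ne_none_iff_exists'.1 (mem_dm.1 h3)
      unfold fz
      rw [if_pos hl, hv, h1 e v hv]
      rfl
    · unfold fz
      rw [if_neg hl]
  ext e
  constructor
  · intro he
    have := mem_rch.1 he
    induction this with
    | refl => exact self_mem_rch _ _
    | @tail b c hb hc ih =>
      have hb' : b ∈ rch (fz lam d ρ S) e0 := mem_rch.2 hb
      rw [key b hb'] at hc
      exact rch_step (ih hb') hc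
  · intro he
    have := mem_rch.1 he
    clear he
    induction this with
    | refl => exact self_mem_rch _ _
    | @tail b c hb hc ih =>
      rw [← key b ih] at hc
      exact rch_step ih hc

/-- The steps of type `d` actually made. -/
noncomputable def actual (lam : E → ℕ) (d : ℕ) (S : E → Option E) (e0 : E) :
    E → Option (Option E) :=
  fun e => if lam e = d ∧ e ∈ rch S e0 then some (S e) else none

lemma actual_spec (lam : E → ℕ) (d : ℕ) (S : E → Option E) (e0 : E) :
    (∀ e v, actual lam d S e0 e = some v → S e = v) ∧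
    rch (fz lam d (actual lam d S e0) S) e0 = rch S e0 ∧
    dm (actual lam d S e0) = typ lam d (rch S e0) := by
  have h1 : ∀ e v, actual lam d S e0 e = some v → S e = v := by
    intro e v h
    unfold actual at h
    split_ifs at h with h'
    exact Option.some.inj h
  have h3 : dm (actual lam d S e0) = typ lam d (rch S e0) := by
    ext e
    rw [mem_dm, mem_typ]
    unfold actual
    by_cases h : lam e = d ∧ e ∈ rch S e0
    · rw [if_pos h]
      exact ⟨fun _ => ⟨h.2, h.1⟩, fun _ => by simp⟩
    · rw [if_neg h]
      exact ⟨fun h' => absurd rfl h', fun h' => absurd ⟨h'.2, h'.1⟩ h⟩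
  have key : ∀ e ∈ rch S e0, fz lam d (actual lam d S e0) S e = S e := by
    intro e he
    unfold fz
    by_cases hl : lam e = d
    · rw [if_pos hl]
      unfold actual
      rw [if_pos ⟨hl, he⟩]
      rfl
    · rw [if_neg hl]
  refine ⟨h1, ?_, h3⟩
  ext e
  constructor
  · intro he
    have := mem_rch.1 he
    clear he
    induction this with
    | refl => exact self_mem_rch _ _
    | @tail b c hb hc ih =>
      rw [key b ih] at hc
      exact rch_step ih hc
  · intro he
    have := mem_rch.1 he
    induction this with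
    | refl => exact self_mem_rch _ _
    | @tail b c hb hc ih =>
      have hb' : b ∈ rch S e0 := mem_rch.2 hb
      rw [← key b hb'] at hc
      exact rch_step (ih hb') hc

/-- Expansion over the steps of type `d`. -/
lemma expand (lam : E → ℕ) (d N : ℕ) (S : E → Option E) (e0 : E) (Ψ : Finset E → Prop)
    (hΨ : ∀ V, Ψ V → (typ lam d V).card ≤ N) :
    ind (Ψ (rch S e0)) = ∑ ρ ∈ PM lam d N,
      ind (∀ e v, ρ e = some v → S e = v) *
        ind (Ψ (rch (fz lam d ρ S) e0) ∧ typ lam d (rch (fz lam d ρ S) e0) = dm ρ) := by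
  obtain ⟨h1, h2, h3⟩ := actual_spec lam d S e0
  have huniq : ∀ ρ ∈ PM lam d N, (∀ e v, ρ e = some v → S e = v) →
      typ lam d (rch (fz lam d ρ S) e0) = dm ρ → ρ = actual lam d S e0 := by
    intro ρ hρ g1 g2
    have g3 := rch_fz g1 g2
    rw [g3] at g2
    funext e
    by_cases he : e ∈ dm ρ
    · obtain ⟨v, hv⟩ := Option.ne_none_iff_exists'.1 (mem_dm.1 he)
      rw [← g2] at he
      obtain ⟨g4, g5⟩ := mem_typ.1 he
      unfold actual
      rw [if_pos ⟨g5, g4⟩, hv, g1 e v hv]
    · have he' : ρ e = none := by
        by_contra hne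
        exact he (mem_dm.2 hne)
      rw [← g2] at he
      unfold actual
      rw [if_neg (fun h => he (mem_typ.2 ⟨h.2, h.1⟩)), he']
  by_cases hP : Ψ (rch S e0)
  · rw [ind_true hP]
    have hmem : actual lam d S e0 ∈ PM lam d N := by
      unfold PM
      rw [Finset.mem_filter]
      refine ⟨Finset.mem_univ _, ?_, ?_⟩
      · intro e he
        have := mem_dm.2 he
        rw [h3] at this
        exact (mem_typ.1 this).2
      · rw [h3]
        exact hΨ _ hP
    rw [Finset.sum_eq_single_of_mem _ hmem]
    · rw [ind_true h1, ind_true, one_mul]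
      rw [h2]
      exact ⟨hP, h3.symm⟩
    · intro ρ hρ hne
      by_cases g1 : ∀ e v, ρ e = some v → S e = v
      · rw [ind_false (P := Ψ _ ∧ _), mul_zero]
        rintro ⟨-, g2⟩
        exact hne (huniq ρ hρ g1 g2)
      · rw [ind_false g1, zero_mul]
  · rw [ind_false hP]
    symm
    refine Finset.sum_eq_zero ?_
    intro ρ hρ
    by_cases g1 : ∀ e v, ρ e = some v → S e = v
    · rw [ind_false (P := Ψ _ ∧ _), mul_zero]
      rintro ⟨g0, g2⟩
      rw [rch_fz g1 g2] at g0
      exact hP g0
    · rw [ind_false g1, zero_mul]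

/-- The number of partial maps. -/
lemma card_PM (lam : E → ℕ) (d N : ℕ) :
    (PM lam d N).card ≤ (Fintype.card E * (Fintype.card E + 1) + 1) ^ N := by
  have e1 : (Fintype.card E * (Fintype.card E + 1) + 1) ^ N =
      Fintype.card (Fin N → Option (E × Option E)) := by
    rw [Fintype.card_fun, Fintype.card_option, Fintype.card_prod, Fintype.card_option,
      Fintype.card_fin]
  rw [e1, ← Finset.card_univ]
  refine Finset.card_le_card_of_injOn
    (fun ρ => fun j : Fin N => ((dm ρ).toList[(j : ℕ)]?).map fun e => (e, (ρ e).getD none))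
    (fun _ _ => Finset.mem_univ _) ?_
  intro ρ hρ ρ' hρ' h
  have hρ := (Finset.mem_filter.1 (Finset.mem_coe.1 hρ)).2
  have hρ' := (Finset.mem_filter.1 (Finset.mem_coe.1 hρ')).2
  have key : ∀ ρ₁ ρ₂ : E → Option (Option E), (dm ρ₁).card ≤ N →
      (fun j : Fin N => ((dm ρ₁).toList[(j : ℕ)]?).map fun e => (e, (ρ₁ e).getD none)) =
      (fun j : Fin N => ((dm ρ₂).toList[(j : ℕ)]?).map fun e => (e, (ρ₂ e).getD none)) →
      ∀ e v, ρ₁ e = some v → ρ₂ e = some v := by
    intro ρ₁ ρ₂ hc heq e v hv
    have he : e ∈ (dm ρ₁).toList := by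
      rw [Finset.mem_toList, mem_dm, hv]
      simp
    obtain ⟨j, hj, hje⟩ := List.getElem_of_mem he
    have hjN : j < N := by
      rw [Finset.length_toList] at hj
      omega
    have h1 := congrFun heq ⟨j, hjN⟩
    simp only [List.getElem?_eq_getElem hj, hje, Option.map_some, hv] at h1
    symm at h1
    rw [Option.map_eq_some_iff] at h1
    obtain ⟨e', he', h2⟩ := h1
    have h3 : e' = e := congrArg Prod.fst h2
    have h4 : (ρ₂ e').getD none = v := congrArg Prod.snd h2
    subst h3
    have h5 : e' ∈ dm ρ₂ := by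
      rw [← Finset.mem_toList]
      exact List.mem_of_getElem? he'
    obtain ⟨v', hv'⟩ := Option.ne_none_iff_exists'.1 (mem_dm.1 h5)
    rw [hv'] at h4 ⊢
    rw [← h4]
    rfl
  funext e
  cases h1 : ρ e with
  | some v => exact (key ρ ρ' hρ.2 h e v h1).symm
  | none =>
    cases h2 : ρ' e with
    | none => rfl
    | some v =>
      have := key ρ' ρ hρ'.2 h.symm e v h2
      rw [h1] at this
      exact absurd this (by simp)

end Pool.Agent.Det
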